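import Mathlib

/-!
# A level one inequality for martingale differences
-/

set_option autoImplicit false

namespace Pool.Agent.J6H11.Ask

open Finset

theorem exp_sum_key {H ι : Type} [Fintype H] [DecidableEq ι] (G : ι → H → ℝ) (σ : ι → H → H)
    (r : ℝ) (k : ι → ℤ) (B : Finset ι) :
    (∀ t ∈ B, Function.Involutive (σ t)) → (∀ t ∈ B, ∀ h, G t (σ t h) = -G t h) →
    (∀ t ∈ B, ∀ t' ∈ B, t ≠ t' → k t' ≤ k t → ∀ h, G t' (σ t h) = G t' h) →
    (∀ t ∈ B, ∀ h, |G t h| ≤ 1) →
    ∑ h, Real.exp (r * ∑ t ∈ B, G t h) ≤ Fintype.card H * Real.exp (r ^ 2 * B.card / 2) := by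
  induction B using Finset.induction_on_max_value k with
  | empty =>
    intro _ _ _ _
    simp
  | insert t0 B ht0 hmax ih =>
    intro h1 h2 h3 h4
    have ih' := ih (fun t ht => h1 t (Finset.mem_insert_of_mem ht))
      (fun t ht => h2 t (Finset.mem_insert_of_mem ht))
      (fun t ht t' ht' => h3 t (Finset.mem_insert_of_mem ht) t' (Finset.mem_insert_of_mem ht'))
      (fun t ht => h4 t (Finset.mem_insert_of_mem ht))
    have hm : t0 ∈ insert t0 B := Finset.mem_insert_self _ _
    obtain ⟨R, hR⟩ : ∃ R : H → ℝ, R = fun h => r * ∑ t ∈ B, G t h := ⟨_, rfl⟩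
    have hRσ : ∀ h, R (σ t0 h) = R h := by
      intro h
      rw [hR]
      simp only
      congr 1
      refine Finset.sum_congr rfl fun t ht => ?_
      exact h3 t0 hm t (Finset.mem_insert_of_mem ht) (fun e => ht0 (e ▸ ht)) (hmax t ht) h
    have e1 : ∀ h, r * ∑ t ∈ insert t0 B, G t h = r * G t0 h + R h := by
      intro h
      rw [Finset.sum_insert ht0, hR, mul_add]
    have e2 : ∑ h, Real.exp (r * G t0 h + R h) = ∑ h, Real.exp (-(r * G t0 h) + R h) := by
      rw [← Equiv.sum_comp (Function.Involutive.toPerm _ (h1 t0 hm))]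
      refine Finset.sum_congr rfl fun h _ => ?_
      show Real.exp (r * G t0 (σ t0 h) + R (σ t0 h)) = _
      rw [h2 t0 hm, hRσ]
      congr 1
      ring
    have e3 : ∑ h, Real.exp (r * G t0 h + R h) ≤
        ∑ h, Real.exp (r ^ 2 / 2) * Real.exp (R h) := by
      have e4 : ∑ h, Real.exp (r * G t0 h + R h) =
          ∑ h, Real.cosh (r * G t0 h) * Real.exp (R h) := by
        have e5 : ∑ h, Real.cosh (r * G t0 h) * Real.exp (R h) =
            (∑ h, Real.exp (r * G t0 h + R h) + ∑ h, Real.exp (-(r * G t0 h) + R h)) / 2 := by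
          rw [← Finset.sum_add_distrib, Finset.sum_div]
          refine Finset.sum_congr rfl fun h _ => ?_
          rw [Real.cosh_eq, Real.exp_add, Real.exp_add]
          ring
        rw [e5, ← e2]
        ring
      rw [e4]
      refine Finset.sum_le_sum fun h _ => ?_
      refine mul_le_mul_of_nonneg_right ?_ (Real.exp_pos _).le
      refine (Real.cosh_le_exp_half_sq _).trans (Real.exp_le_exp.2 ?_)
      have h5 := h4 t0 hm h
      have h6 : G t0 h ^ 2 ≤ 1 := by
        rw [← sq_abs]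
        exact pow_le_one₀ (abs_nonneg _) h5
      have h7 : (r * G t0 h) ^ 2 ≤ r ^ 2 := by
        rw [mul_pow]
        nlinarith [sq_nonneg r]
      linarith
    calc ∑ h, Real.exp (r * ∑ t ∈ insert t0 B, G t h)
        = ∑ h, Real.exp (r * G t0 h + R h) := Finset.sum_congr rfl fun h _ => by rw [e1]
      _ ≤ ∑ h, Real.exp (r ^ 2 / 2) * Real.exp (R h) := e3
      _ = Real.exp (r ^ 2 / 2) * ∑ h, Real.exp (R h) := by rw [Finset.mul_sum]
      _ ≤ Real.exp (r ^ 2 / 2) *
          (Fintype.card H * Real.exp (r ^ 2 * B.card / 2)) := by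
          refine mul_le_mul_of_nonneg_left ?_ (Real.exp_pos _).le
          rw [hR]
          exact ih'
      _ = Fintype.card H * Real.exp (r ^ 2 * (insert t0 B).card / 2) := by
          rw [Finset.card_insert_of_notMem ht0]
          have e5 : Real.exp (r ^ 2 / 2) * Real.exp (r ^ 2 * B.card / 2) =
              Real.exp (r ^ 2 * ((B.card + 1 : ℕ) : ℝ) / 2) := by
            rw [← Real.exp_add]
            congr 1
            push_cast
            ring
          rw [← e5]
          ring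

/-- the level one inequality for martingale differences -/
theorem level_key {H ι : Type} [Fintype H] [DecidableEq ι] (G : ι → H → ℝ) (σ : ι → H → H)
    (k : ι → ℤ) (B : Finset ι)
    (h1 : ∀ t ∈ B, Function.Involutive (σ t)) (h2 : ∀ t ∈ B, ∀ h, G t (σ t h) = -G t h)
    (h3 : ∀ t ∈ B, ∀ t' ∈ B, t ≠ t' → k t' ≤ k t → ∀ h, G t' (σ t h) = G t' h)
    (h4 : ∀ t ∈ B, ∀ h, |G t h| ≤ 1) (Z : Finset H) {r : ℝ} (hr : 0 < r) :
    ∑ t ∈ B, ∑ h ∈ Z, G t h ≤
      Z.card * (Real.log (Fintype.card H / Z.card) / r + r * B.card / 2) := by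
  rcases Z.eq_empty_or_nonempty with hZ | hZ
  · subst hZ; simp
  have hz : (0 : ℝ) < Z.card := by exact_mod_cast hZ.card_pos
  have hH : (0 : ℝ) < Fintype.card H := by
    have : Z.card ≤ Fintype.card H := Finset.card_le_univ Z
    exact_mod_cast hZ.card_pos.trans_le this
  obtain ⟨L, hL⟩ : ∃ L : ℝ, L = Real.log (Fintype.card H / Z.card) + r ^ 2 * B.card / 2 :=
    ⟨_, rfl⟩
  have e1 := exp_sum_key G σ r k B h1 h2 h3 h4
  have e2 : ∑ h ∈ Z, Real.exp (r * ∑ t ∈ B, G t h) ≤ Z.card * Real.exp L := by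
    have e3 : (Z.card : ℝ) * Real.exp L = Fintype.card H * Real.exp (r ^ 2 * B.card / 2) := by
      rw [hL, Real.exp_add, Real.exp_log (by positivity)]
      field_simp
    rw [e3]
    refine le_trans ?_ e1
    exact Finset.sum_le_sum_of_subset_of_nonneg (Finset.subset_univ Z)
      fun h _ _ => (Real.exp_pos _).le
  have e3 : ∑ h ∈ Z, (r * ∑ t ∈ B, G t h) ≤ Z.card * L := by
    have e4 : ∀ h, r * ∑ t ∈ B, G t h ≤
        Real.exp (r * ∑ t ∈ B, G t h) * Real.exp (-L) - 1 + L := by
      intro h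
      rw [← Real.exp_add]
      have := Real.add_one_le_exp (r * ∑ t ∈ B, G t h + -L)
      linarith
    have e5 := Finset.sum_le_sum fun h (_ : h ∈ Z) => e4 h
    rw [Finset.sum_add_distrib, Finset.sum_sub_distrib, ← Finset.sum_mul] at e5
    simp only [Finset.sum_const, nsmul_eq_mul, mul_one] at e5
    have e6 : (∑ h ∈ Z, Real.exp (r * ∑ t ∈ B, G t h)) * Real.exp (-L) ≤ Z.card := by
      calc (∑ h ∈ Z, Real.exp (r * ∑ t ∈ B, G t h)) * Real.exp (-L)
          ≤ (Z.card * Real.exp L) * Real.exp (-L) :=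
            mul_le_mul_of_nonneg_right e2 (Real.exp_pos _).le
        _ = Z.card := by
            rw [mul_assoc, ← Real.exp_add, add_neg_cancel, Real.exp_zero, mul_one]
    linarith
  rw [← Finset.mul_sum, Finset.sum_comm] at e3
  have e4 : (Z.card : ℝ) * (Real.log (Fintype.card H / Z.card) / r + r * B.card / 2) =
      Z.card * L / r := by
    rw [hL]
    field_simp
  rw [e4, le_div_iff₀ hr]
  linarith

end Pool.Agent.J6H11.Ask
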