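import Pool.Agent.J6H11.Lsk.Plant
import Pool.Agent.J6H11.Ask.Level

/-!
# Cosets of subgroups in the cube: one block outside of the cube
-/

set_option autoImplicit false

namespace Pool.Agent.J6H11.Ask

open Finset
open Pool.Agent.J6H11.Lsk (Cube lin base0 upd lin_upd avg_three upd_a upd_b upd_c)

section pair

variable {A B G : Type} [Fintype A] [Fintype B] [DecidableEq G]

/-- the number of arguments with a given value -/
def cnt (φ : A → G) (g : G) : ℝ := ∑ U, if φ U = g then (1 : ℝ) else 0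

theorem cnt_nonneg (φ : A → G) (g : G) : 0 ≤ cnt φ g :=
  Finset.sum_nonneg fun _ _ => by split_ifs <;> norm_num

theorem sum_fiber (φ : A → G) (f : G → ℝ) (Γ : Finset G) (h : ∀ U, φ U ∈ Γ) :
    ∑ U, f (φ U) = ∑ g ∈ Γ, cnt φ g * f g := by
  unfold cnt
  simp only [Finset.sum_mul]
  rw [Finset.sum_comm]
  refine Finset.sum_congr rfl fun U _ => ?_
  simp only [ite_mul, one_mul, zero_mul]
  rw [Finset.sum_ite_eq, if_pos (h U)]

theorem sum_fiber_le (φ : A → G) (f : G → ℝ) (hf : ∀ g, 0 ≤ f g) (Γ : Finset G) :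
    ∑ g ∈ Γ, cnt φ g * f g ≤ ∑ U, f (φ U) := by
  unfold cnt
  simp only [Finset.sum_mul]
  rw [Finset.sum_comm]
  refine Finset.sum_le_sum fun U _ => ?_
  simp only [ite_mul, one_mul, zero_mul]
  rw [Finset.sum_ite_eq]
  split_ifs
  · exact le_rfl
  · exact hf _

variable [AddCommGroup G]

theorem four_le {x y u v : ℝ} (hx : 0 ≤ x) (hy : 0 ≤ y) (hu : 0 ≤ u) (hv : 0 ≤ v) :
    u * v ≤ x * y + u * |v - y| + v * |u - x| := by
  have h1 := le_abs_self (v - y)
  have h2 := le_abs_self (u - x)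
  have h3 := abs_nonneg (v - y)
  have h4 := abs_nonneg (u - x)
  rcases le_total u x with h | h
  · have : u * y ≤ x * y := mul_le_mul_of_nonneg_right h hy
    have : u * (v - y) ≤ u * |v - y| := mul_le_mul_of_nonneg_left h1 hu
    have : 0 ≤ v * |u - x| := by positivity
    linarith
  · have e1 : v * (u - x) ≤ v * |u - x| := mul_le_mul_of_nonneg_left h2 hv
    have e2 : x * (v - y) ≤ x * |v - y| := mul_le_mul_of_nonneg_left h1 hx
    have e3 : x * |v - y| ≤ u * |v - y| := mul_le_mul_of_nonneg_right h h3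
    linarith

/-- The key inequality. -/
theorem pair_le (φ : A → G) (φ' : B → G) (c θ : G) :
    ∑ U, ∑ U', (if φ U + φ' U' = c - θ then (1 : ℝ) else 0) ≤
      ∑ U, ∑ U', (if φ U + φ' U' = c + θ then (1 : ℝ) else 0) +
      ∑ U, |∑ U', ((if φ U + φ' U' = c - θ then (1 : ℝ) else 0) -
        (if φ U + φ' U' = c then (1 : ℝ) else 0))| +
      ∑ U', |∑ U, ((if φ U + φ' U' = c - θ then (1 : ℝ) else 0) -
        (if φ U + φ' U' = c then (1 : ℝ) else 0))| := by
  have eA : ∀ U τ, ∑ U', (if φ U + φ' U' = τ then (1 : ℝ) else 0) = cnt φ' (τ - φ U) := by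
    intro U τ
    unfold cnt
    refine Finset.sum_congr rfl fun U' _ => ?_
    have : φ U + φ' U' = τ ↔ φ' U' = τ - φ U := by
      rw [eq_sub_iff_add_eq, add_comm]
    simp only [this]
  have eB : ∀ U' τ, ∑ U, (if φ U + φ' U' = τ then (1 : ℝ) else 0) = cnt φ (τ - φ' U') := by
    intro U' τ
    unfold cnt
    refine Finset.sum_congr rfl fun U _ => ?_
    have : φ U + φ' U' = τ ↔ φ U = τ - φ' U' := by
      rw [eq_sub_iff_add_eq]
    simp only [this]
  simp only [Finset.sum_sub_distrib, eA, eB]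
  obtain ⟨Γ, hΓ⟩ : ∃ Γ : Finset G, Γ = Finset.univ.image φ ∪ Finset.univ.image (fun U => φ U + θ) :=
    ⟨_, rfl⟩
  have m1 : ∀ U, φ U ∈ Γ := fun U => by
    rw [hΓ]; exact Finset.mem_union_left _ (Finset.mem_image_of_mem _ (Finset.mem_univ U))
  have m2 : ∀ U, φ U + θ ∈ Γ := fun U => by
    rw [hΓ]
    exact Finset.mem_union_right _ (Finset.mem_image_of_mem (fun U => φ U + θ) (Finset.mem_univ U))
  have hshift : ∀ g, cnt (fun U => φ U + θ) g = cnt φ (g - θ) := by
    intro g
    unfold cnt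
    refine Finset.sum_congr rfl fun U _ => ?_
    have : φ U + θ = g ↔ φ U = g - θ := by rw [eq_sub_iff_add_eq]
    simp only [this]
  have s1 : ∑ U, cnt φ' (c - θ - φ U) = ∑ g ∈ Γ, cnt φ (g - θ) * cnt φ' (c - g) := by
    have h1 := sum_fiber (fun U => φ U + θ) (fun g => cnt φ' (c - g)) Γ m2
    simp only [hshift] at h1
    rw [← h1]
    refine Finset.sum_congr rfl fun U _ => ?_
    congr 1
    abel
  have s2 : ∑ U, cnt φ' (c + θ - φ U) = ∑ g ∈ Γ, cnt φ g * cnt φ' (c + θ - g) :=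
    sum_fiber φ (fun g => cnt φ' (c + θ - g)) Γ m1
  have s3 : ∑ U, |cnt φ' (c - θ - φ U) - cnt φ' (c - φ U)| =
      ∑ g ∈ Γ, cnt φ (g - θ) * |cnt φ' (c - g) - cnt φ' (c + θ - g)| := by
    have h1 := sum_fiber (fun U => φ U + θ) (fun g => |cnt φ' (c - g) - cnt φ' (c + θ - g)|) Γ m2
    simp only [hshift] at h1
    rw [← h1]
    refine Finset.sum_congr rfl fun U _ => ?_
    congr 3 <;> abel
  have s4 : ∑ g ∈ Γ, cnt φ' (c - g) * |cnt φ (g - θ) - cnt φ g| ≤
      ∑ U', |cnt φ (c - θ - φ' U') - cnt φ (c - φ' U')| := by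
    have h1 := sum_fiber_le φ' (fun x => |cnt φ (c - θ - x) - cnt φ (c - x)|)
      (fun _ => abs_nonneg _) (Γ.image (fun g => c - g))
    rw [Finset.sum_image (fun x _ y _ h => sub_right_injective h)] at h1
    refine le_trans (le_of_eq ?_) h1
    refine Finset.sum_congr rfl fun g _ => ?_
    have x1 : c - θ - (c - g) = g - θ := by abel
    have x2 : c - (c - g) = g := by abel
    simp only [x1, x2]
  rw [s1, s2, s3]
  have key : ∑ g ∈ Γ, cnt φ (g - θ) * cnt φ' (c - g) ≤ ∑ g ∈ Γ, cnt φ g * cnt φ' (c + θ - g) +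
      ∑ g ∈ Γ, cnt φ (g - θ) * |cnt φ' (c - g) - cnt φ' (c + θ - g)| +
      ∑ g ∈ Γ, cnt φ' (c - g) * |cnt φ (g - θ) - cnt φ g| := by
    rw [← Finset.sum_add_distrib, ← Finset.sum_add_distrib]
    refine Finset.sum_le_sum fun g _ => ?_
    exact four_le (cnt_nonneg _ _) (cnt_nonneg _ _) (cnt_nonneg _ _) (cnt_nonneg _ _)
  linarith

end pair

section cube

variable {n : ℕ} {G : Type} [AddCommGroup G] [DecidableEq G]

/-- two points are combined -/
def comb (W : Finset (Fin n)) (U U' : Cube n) : Cube n := fun i => if i ∈ W then U i else U' i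

theorem sum_comb (W : Finset (Fin n)) (ψ : Cube n → ℝ) :
    ∑ U, ∑ U', ψ (comb W U U') = 2 ^ n * ∑ h, ψ h := by
  have hinv : Function.Involutive (fun p : Cube n × Cube n => (comb W p.1 p.2, comb W p.2 p.1)) := by
    intro p
    refine Prod.ext (funext fun i => ?_) (funext fun i => ?_)
    · simp only [comb]
      split_ifs <;> rfl
    · simp only [comb]
      split_ifs <;> rfl
  rw [← Finset.sum_product' (s := Finset.univ) (t := Finset.univ)
    (f := fun U U' => ψ (comb W U U')), Finset.univ_product_univ]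
  have h1 := Equiv.sum_comp (Function.Involutive.toPerm _ hinv) (fun p : Cube n × Cube n => ψ p.1)
  have h2 : ∑ p : Cube n × Cube n, ψ (comb W p.1 p.2) = ∑ p : Cube n × Cube n, ψ p.1 := h1
  rw [h2, ← Finset.univ_product_univ, Finset.sum_product]
  simp only [Finset.sum_const, Finset.card_univ, nsmul_eq_mul]
  rw [← Finset.mul_sum]
  congr 1
  simp [Cube]

/-- the indicator of the value `u` of the block -/
def pt (a b c : Fin n) (u : Bool × Bool × Bool) (h : Cube n) : ℝ :=
  if h a = u.1 ∧ h b = u.2.1 ∧ h c = u.2.2 then 1 else 0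

/-- the sum over the vectors with a given value of the block -/
theorem sum_pt {a b c : Fin n} (hab : a ≠ b) (hac : a ≠ c) (hbc : b ≠ c)
    (u : Bool × Bool × Bool) (Φ : Cube n → ℝ) :
    8 * ∑ h, pt a b c u h * Φ h = ∑ h, Φ (upd a b c u.1 u.2.1 u.2.2 h) := by
  rw [avg_three a b c]
  refine Finset.sum_congr rfl fun h _ => ?_
  have key : ∀ x y z : Bool, pt a b c u (upd a b c x y z h) =
      if x = u.1 ∧ y = u.2.1 ∧ z = u.2.2 then 1 else 0 := by
    intro x y z
    unfold pt
    rw [upd_a hab hac, upd_b hbc, upd_c]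
  simp only [key]
  obtain ⟨u1, u2, u3⟩ := u
  cases u1 <;> cases u2 <;> cases u3 <;> simp

omit [DecidableEq G] in
theorem lin_comb (g0 : G) (gg : Fin n → G) {a b c : Fin n} {W : Finset (Fin n)} (ha : a ∉ W)
    (hb : b ∉ W) (hc : c ∉ W) (U U' : Cube n) :
    lin g0 gg (base0 a b c (comb W U U')) =
      (g0 + ∑ i, (if i ∈ W ∧ U i = true then gg i else 0)) +
        ∑ i, (if i ∉ W ∧ i ≠ a ∧ i ≠ b ∧ i ≠ c ∧ U' i = true then gg i else 0) := by
  unfold lin
  rw [add_assoc, ← Finset.sum_add_distrib]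
  congr 1
  refine Finset.sum_congr rfl fun i _ => ?_
  unfold base0 comb
  by_cases hi : i ∈ W
  · have h1 : i ≠ a := fun e => ha (e ▸ hi)
    have h2 : i ≠ b := fun e => hb (e ▸ hi)
    have h3 : i ≠ c := fun e => hc (e ▸ hi)
    simp [hi, h1, h2, h3]
  · by_cases h1 : i = a
    · simp [h1, ha]
    by_cases h2 : i = b
    · simp [h2, hb]
    by_cases h3 : i = c
    · simp [h3, hc]
    simp [hi, h1, h2, h3]

/-- **Cosets in the cube.** -/
theorem coset_le (g0 : G) (gg : Fin n → G) {a b c : Fin n} (hab : a ≠ b) (hac : a ≠ c)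
    (hbc : b ≠ c) {W : Finset (Fin n)} (ha : a ∉ W) (hb : b ∉ W) (hc : c ∉ W) (c0 : G) :
    ∃ e e' : Cube n → ℝ, (∀ h, |e h| ≤ 1) ∧ (∀ h, |e' h| ≤ 1) ∧
      (∀ h h', (∀ i ∈ W, h i = h' i) → e h = e h') ∧
      (∀ h h', (∀ i, i ∉ W → i ≠ a → i ≠ b → i ≠ c → h i = h' i) → e' h = e' h') ∧
      8 * ∑ h, (if lin g0 gg h = c0 then pt a b c (true, true, true) h else 0) ≤
        ∑ h, (if lin g0 gg (base0 a b c h) + (-gg a - gg b - gg c) = c0 then (1 : ℝ) else 0) +
        8 * ∑ h, (if lin g0 gg h = c0 then e h * (pt a b c (true, true, true) h -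
          pt a b c (false, false, false) h) else 0) +
        8 * ∑ h, (if lin g0 gg h = c0 then e' h * (pt a b c (true, true, true) h -
          pt a b c (false, false, false) h) else 0) := by
  obtain ⟨θ, hθ⟩ : ∃ θ : G, θ = gg a + gg b + gg c := ⟨_, rfl⟩
  obtain ⟨φ, hφ⟩ : ∃ φ : Cube n → G, φ = fun U =>
    g0 + ∑ i, (if i ∈ W ∧ U i = true then gg i else 0) := ⟨_, rfl⟩
  obtain ⟨φ', hφ'⟩ : ∃ φ' : Cube n → G, φ' = fun U' =>
    ∑ i, (if i ∉ W ∧ i ≠ a ∧ i ≠ b ∧ i ≠ c ∧ U' i = true then gg i else 0) := ⟨_, rfl⟩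
  have hlin : ∀ U U', φ U + φ' U' = lin g0 gg (base0 a b c (comb W U U')) := by
    intro U U'
    rw [lin_comb g0 gg ha hb hc, hφ, hφ']
  -- the two signs
  obtain ⟨D, hD⟩ : ∃ D : Cube n → ℝ, D = fun U => ∑ U', ((if φ U + φ' U' = c0 - θ then (1 : ℝ)
    else 0) - (if φ U + φ' U' = c0 then (1 : ℝ) else 0)) := ⟨_, rfl⟩
  obtain ⟨D', hD'⟩ : ∃ D' : Cube n → ℝ, D' = fun U' => ∑ U, ((if φ U + φ' U' = c0 - θ then (1 : ℝ)
    else 0) - (if φ U + φ' U' = c0 then (1 : ℝ) else 0)) := ⟨_, rfl⟩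
  obtain ⟨e, he⟩ : ∃ e : Cube n → ℝ, e = fun U => if 0 ≤ D U then 1 else -1 := ⟨_, rfl⟩
  obtain ⟨e', he'⟩ : ∃ e' : Cube n → ℝ, e' = fun U' => if 0 ≤ D' U' then 1 else -1 := ⟨_, rfl⟩
  have heD : ∀ U, |D U| = e U * D U := by
    intro U
    rw [he]
    simp only
    split_ifs with h
    · rw [abs_of_nonneg h, one_mul]
    · rw [abs_of_neg (not_le.1 h), neg_one_mul]
  have heD' : ∀ U, |D' U| = e' U * D' U := by
    intro U
    rw [he']
    simp only
    split_ifs with h
    · rw [abs_of_nonneg h, one_mul]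
    · rw [abs_of_neg (not_le.1 h), neg_one_mul]
  have hdep : ∀ h h' : Cube n, (∀ i ∈ W, h i = h' i) → e h = e h' := by
    intro h h' hh
    have h1 : φ h = φ h' := by
      rw [hφ]
      simp only
      congr 1
      refine Finset.sum_congr rfl fun i _ => ?_
      by_cases hi : i ∈ W
      · rw [hh i hi]
      · simp [hi]
    rw [he]
    simp only
    rw [hD]
    simp only [h1]
  have hdep' : ∀ h h' : Cube n, (∀ i, i ∉ W → i ≠ a → i ≠ b → i ≠ c → h i = h' i) →
      e' h = e' h' := by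
    intro h h' hh
    have h1 : φ' h = φ' h' := by
      rw [hφ']
      simp only
      refine Finset.sum_congr rfl fun i _ => ?_
      by_cases hi : i ∉ W ∧ i ≠ a ∧ i ≠ b ∧ i ≠ c
      · rw [hh i hi.1 hi.2.1 hi.2.2.1 hi.2.2.2]
      · have e1 : ¬ (i ∉ W ∧ i ≠ a ∧ i ≠ b ∧ i ≠ c ∧ h i = true) := by tauto
        have e2 : ¬ (i ∉ W ∧ i ≠ a ∧ i ≠ b ∧ i ≠ c ∧ h' i = true) := by tauto
        rw [if_neg e1, if_neg e2]
    rw [he']
    simp only
    rw [hD']
    simp only [h1]
  refine ⟨e, e', fun h => ?_, fun h => ?_, hdep, hdep', ?_⟩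
  · rw [he]; simp only; split_ifs <;> simp
  · rw [he']; simp only; split_ifs <;> simp
  have main := pair_le φ φ' c0 θ
  have hpow : (0 : ℝ) < 2 ^ n := by positivity
  -- the sums
  obtain ⟨L, hL⟩ : ∃ L : Cube n → G, L = fun h => lin g0 gg (base0 a b c h) := ⟨_, rfl⟩
  have hS : ∀ τ : G, ∑ U, ∑ U', (if φ U + φ' U' = τ then (1 : ℝ) else 0) =
      2 ^ n * ∑ h, (if L h = τ then (1 : ℝ) else 0) := by
    intro τ
    rw [← sum_comb W]
    refine Finset.sum_congr rfl fun U _ => Finset.sum_congr rfl fun U' _ => ?_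
    rw [hlin, hL]
  have hJ : ∑ U, |∑ U', ((if φ U + φ' U' = c0 - θ then (1 : ℝ) else 0) -
      (if φ U + φ' U' = c0 then (1 : ℝ) else 0))| =
      2 ^ n * ∑ h, e h * ((if L h = c0 - θ then (1 : ℝ) else 0) -
        (if L h = c0 then (1 : ℝ) else 0)) := by
    rw [← sum_comb W]
    refine Finset.sum_congr rfl fun U _ => ?_
    have h1 := heD U
    rw [hD] at h1
    simp only at h1
    rw [h1, Finset.mul_sum]
    refine Finset.sum_congr rfl fun U' _ => ?_
    have h2 : e (comb W U U') = e U := hdep _ _ fun i hi => by simp [comb, hi]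
    rw [h2, hlin, hL]
  have hJ' : ∑ U', |∑ U, ((if φ U + φ' U' = c0 - θ then (1 : ℝ) else 0) -
      (if φ U + φ' U' = c0 then (1 : ℝ) else 0))| =
      2 ^ n * ∑ h, e' h * ((if L h = c0 - θ then (1 : ℝ) else 0) -
        (if L h = c0 then (1 : ℝ) else 0)) := by
    rw [← sum_comb W, Finset.sum_comm]
    refine Finset.sum_congr rfl fun U' _ => ?_
    have h1 := heD' U'
    rw [hD'] at h1
    simp only at h1
    rw [h1, Finset.mul_sum]
    refine Finset.sum_congr rfl fun U _ => ?_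
    have h2 : e' (comb W U U') = e' U' := hdep' _ _ fun i hi _ _ _ => by simp [comb, hi]
    rw [h2, hlin, hL]
  rw [hS, hS, hJ, hJ'] at main
  -- pass to the block
  have u1 : ∀ h, lin g0 gg (upd a b c true true true h) = L h + θ := by
    intro h
    rw [lin_upd g0 gg hab hac hbc, hL, hθ]
    simp
  have u0 : ∀ h, lin g0 gg (upd a b c false false false h) = L h := by
    intro h
    rw [lin_upd g0 gg hab hac hbc, hL]
    simp
  have hupd : ∀ (x y z : Bool) (h : Cube n), ∀ i, i ≠ a → i ≠ b → i ≠ c →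
      upd a b c x y z h i = h i := by
    intro x y z h i h1 h2 h3
    unfold upd
    rw [Function.update_of_ne h3, Function.update_of_ne h2, Function.update_of_ne h1]
  have g1 : ∀ f : Cube n → ℝ, (∀ x y z h, f (upd a b c x y z h) = f h) →
      8 * ∑ h, (if lin g0 gg h = c0 then f h * (pt a b c (true, true, true) h -
          pt a b c (false, false, false) h) else 0) =
      ∑ h, f h * ((if L h = c0 - θ then (1 : ℝ) else 0) - (if L h = c0 then (1 : ℝ) else 0)) := by
    intro f hf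
    have h1 := sum_pt hab hac hbc (true, true, true) (fun h => if lin g0 gg h = c0 then f h else 0)
    have h2 := sum_pt hab hac hbc (false, false, false)
      (fun h => if lin g0 gg h = c0 then f h else 0)
    simp only [u1, u0, hf] at h1 h2
    have h3 : ∑ h, (if lin g0 gg h = c0 then f h * (pt a b c (true, true, true) h -
          pt a b c (false, false, false) h) else 0) =
        ∑ h, pt a b c (true, true, true) h * (if lin g0 gg h = c0 then f h else 0) -
        ∑ h, pt a b c (false, false, false) h * (if lin g0 gg h = c0 then f h else 0) := by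
      rw [← Finset.sum_sub_distrib]
      refine Finset.sum_congr rfl fun h _ => ?_
      split_ifs <;> ring
    rw [h3, mul_sub, h1, h2, ← Finset.sum_sub_distrib]
    refine Finset.sum_congr rfl fun h _ => ?_
    have h4 : L h + θ = c0 ↔ L h = c0 - θ := by rw [eq_sub_iff_add_eq]
    simp only [h4]
    split_ifs <;> ring
  have fe : ∀ x y z h, e (upd a b c x y z h) = e h := by
    intro x y z h
    refine hdep _ _ fun i hi => hupd x y z h i ?_ ?_ ?_
    · exact fun e1 => ha (e1 ▸ hi)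
    · exact fun e1 => hb (e1 ▸ hi)
    · exact fun e1 => hc (e1 ▸ hi)
  have fe' : ∀ x y z h, e' (upd a b c x y z h) = e' h := by
    intro x y z h
    exact hdep' _ _ fun i _ h1 h2 h3 => hupd x y z h i h1 h2 h3
  have g2 : 8 * ∑ h, (if lin g0 gg h = c0 then pt a b c (true, true, true) h else 0) =
      ∑ h, (if L h = c0 - θ then (1 : ℝ) else 0) := by
    have h1 := sum_pt hab hac hbc (true, true, true)
      (fun h => if lin g0 gg h = c0 then (1 : ℝ) else 0)
    simp only [u1] at h1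
    have h3 : ∑ h, (if lin g0 gg h = c0 then pt a b c (true, true, true) h else 0) =
        ∑ h, pt a b c (true, true, true) h * (if lin g0 gg h = c0 then 1 else 0) := by
      refine Finset.sum_congr rfl fun h _ => ?_
      split_ifs <;> ring
    rw [h3, h1]
    refine Finset.sum_congr rfl fun h _ => ?_
    have h4 : L h + θ = c0 ↔ L h = c0 - θ := by rw [eq_sub_iff_add_eq]
    simp only [h4]
  have g3 : ∑ h, (if lin g0 gg (base0 a b c h) + (-gg a - gg b - gg c) = c0 then (1 : ℝ) else 0) =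
      ∑ h, (if L h = c0 + θ then (1 : ℝ) else 0) := by
    refine Finset.sum_congr rfl fun h _ => ?_
    have h4 : lin g0 gg (base0 a b c h) + (-gg a - gg b - gg c) = c0 ↔ L h = c0 + θ := by
      rw [hL, hθ, ← sub_eq_iff_eq_add]
      have : lin g0 gg (base0 a b c h) + (-gg a - gg b - gg c) =
          lin g0 gg (base0 a b c h) - (gg a + gg b + gg c) := by abel
      rw [this]
    simp only [h4]
  rw [g1 e fe, g1 e' fe', g2, g3]
  have h9 : (2 : ℝ) ^ n * ∑ h, (if L h = c0 - θ then (1 : ℝ) else 0) ≤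
      2 ^ n * (∑ h, (if L h = c0 + θ then (1 : ℝ) else 0) +
      ∑ h, e h * ((if L h = c0 - θ then (1 : ℝ) else 0) - (if L h = c0 then (1 : ℝ) else 0)) +
      ∑ h, e' h * ((if L h = c0 - θ then (1 : ℝ) else 0) -
        (if L h = c0 then (1 : ℝ) else 0))) := by
    rw [mul_add, mul_add]
    exact main
  exact le_of_mul_le_mul_left h9 hpow

end cube

end Pool.Agent.J6H11.Ask
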