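import Pool.Agent.J6H11.Sk3.Def

/-!
# Programs with adaptive linear sketches and comparisons for 3SUM: definitions

`Valid`, `Solvable`, `signs` and `values` are those of `Pool.Agent.J6H11.Sk3.Def`.
-/

set_option autoImplicit false

namespace Pool.Agent.J6H11.Ask

open Pool.Agent.J6H11.Sk3 (signs values)

/-- Adaptive programs for the input `x 0, …, x (n - 1)` (decision trees of arbitrary shape and size).
After each query `next` maps the answer to the rest of the program; the answers are

* `digits i`: `x i % p` and `x i / (4 * p)`, that is, all digits of `x i` apart from a factor `4`,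
* `pair i j`: the signs of all `α x i + β x j`, `|α|, |β| ≤ K`,
* `triple i j k`: the signs of all `α x i + β x j + γ x k`, `|α|, |β|, |γ| ≤ K`,
* `read i`: the number `x i`,
* `sketch G φ`: `φ x`, where `φ` is an arbitrary homomorphism from `ℤ ^ n` to an abelian group `G`,
  for instance a linear form in all of the numbers modulo any number. -/
inductive Prog (n : ℕ) : Type 1
  | answer (b : Bool) : Prog n
  | digits (i : Fin n) (next : ℤ → ℤ → Prog n) : Prog n
  | pair (i j : Fin n) (next : (ℤ → ℤ → ℤ → SignType) → Prog n) : Prog n
  | triple (i j k : Fin n) (next : (ℤ → ℤ → ℤ → SignType) → Prog n) : Prog n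
  | read (i : Fin n) (next : ℤ → Prog n) : Prog n
  | sketch (G : Type) [AddCommGroup G] (φ : (Fin n → ℤ) →+ G) (next : G → Prog n) : Prog n

namespace Prog

variable {n : ℕ}

/-- The answer of the program for the input `x`. -/
noncomputable def eval (K p : ℕ) (x : Fin n → ℤ) : Prog n → Bool
  | answer b => b
  | digits i next => (next (x i % p) (x i / (4 * p))).eval K p x
  | pair i j next => (next (signs K (x i) (x j) 0)).eval K p x
  | triple i j k next => (next (signs K (x i) (x j) (x k))).eval K p x
  | read i next => (next (x i)).eval K p x
  | sketch _ φ next => (next (φ x)).eval K p x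

/-- The number of queries `triple` for the input `x`. -/
noncomputable def triples (K p : ℕ) (x : Fin n → ℤ) : Prog n → ℕ
  | answer _ => 0
  | digits i next => (next (x i % p) (x i / (4 * p))).triples K p x
  | pair i j next => (next (signs K (x i) (x j) 0)).triples K p x
  | triple i j k next => (next (signs K (x i) (x j) (x k))).triples K p x + 1
  | read i next => (next (x i)).triples K p x
  | sketch _ φ next => (next (φ x)).triples K p x

/-- The number of queries `read` for the input `x`. -/
noncomputable def reads (K p : ℕ) (x : Fin n → ℤ) : Prog n → ℕ
  | answer _ => 0
  | digits i next => (next (x i % p) (x i / (4 * p))).reads K p x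
  | pair i j next => (next (signs K (x i) (x j) 0)).reads K p x
  | triple i j k next => (next (signs K (x i) (x j) (x k))).reads K p x
  | read i next => (next (x i)).reads K p x + 1
  | sketch _ φ next => (next (φ x)).reads K p x

/-- The number of sketch bits for the input `x`: for each query `sketch G φ` the binary logarithm of
the number of values of `φ` for numbers between `- N` and `N`. -/
noncomputable def bits (K p N : ℕ) (x : Fin n → ℤ) : Prog n → ℝ
  | answer _ => 0
  | digits i next => (next (x i % p) (x i / (4 * p))).bits K p N x
  | pair i j next => (next (signs K (x i) (x j) 0)).bits K p N x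
  | triple i j k next => (next (signs K (x i) (x j) (x k))).bits K p N x
  | read i next => (next (x i)).bits K p N x
  | sketch _ φ next => (next (φ x)).bits K p N x + Real.logb 2 (values N φ)

/-- The number of queries `triple`, and `n` for each read number and each sketch bit. -/
noncomputable def cost (K p N : ℕ) (x : Fin n → ℤ) (P : Prog n) : ℝ :=
  P.triples K p x + n * (P.reads K p x + P.bits K p N x)

end Prog

end Pool.Agent.J6H11.Ask
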