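import Pool.Agent.J6H11.Ask.Main

/-!
# The main theorem: average case
-/

set_option autoImplicit false

namespace Pool.Agent.J6H11.Ask

open Finset
open Pool.Agent.J6H11.Lsk (Cube XU uN uY TT_mem ix_ne uN_abs uN_nonneg uY_abs XU_valid XU_not
  XU_solvable uY_a uY_b uY_c)
open Pool.Agent.J6H11.Sk3 hiding Prog

variable {n N K m d p : ℕ} {S : Finset ℤ} {τ : ℤ}

theorem cost_nonneg (K p N : ℕ) (x : Fin n → ℤ) (P : Prog n) : 0 ≤ P.cost K p N x := by
  unfold Prog.cost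
  have := bits_nonneg K p N x P
  positivity

/-- the inequality at the root -/
theorem root' (H : Setup n N K m d p S τ) {e : Fin n → Fin 4 × ℤ}
    (he : ∀ i, e i ∈ WW m d S τ) (hei : Function.Injective e) {ix : Fin 4 × ℤ → Fin n}
    (hix : ∀ v ∈ WW m d S τ, e (ix v) = v) {K0 : ℕ} (hK0 : K0 ≤ K) {r : ℝ} (hr : 0 < r)
    (P : Prog n) :
    (TT S τ).card * ∑ h : Cube n, nb (P.eval K0 p (XN K m p e h)) ≤
      ∑ t ∈ TT S τ, ∑ h, nb (P.eval K0 p (XY K m p e ix t h)) +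
      ∑ h, (P.triples K0 p (XN K m p e h) : ℝ) +
      48 * m / r * ∑ h, ((P.reads K0 p (XN K m p e h) : ℝ) + P.bits K0 p N (XN K m p e h)) +
      12 * r * (TT S τ).card * 2 ^ n := by
  have h1 := inv_prog H he hei hix hK0 hr P ℤ 0 0 (TT S τ)
    (Finset.Subset.refl _) Finset.univ (by simp)
  have hcard : ((Finset.univ : Finset (Cube n)).card : ℝ) = 2 ^ n := by simp [Cube]
  simp only [AddMonoidHom.zero_apply, if_true] at h1
  rw [hcard, div_self (by positivity : (2 : ℝ) ^ n ≠ 0), Real.log_one, mul_zero, add_zero,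
    ← Finset.sum_mul] at h1
  have h2 : Real.log 2 ≤ 1 := by
    have := Real.log_two_lt_d9
    linarith
  have h3 : 0 ≤ ∑ h, ((P.reads K0 p (XN K m p e h) : ℝ) + P.bits K0 p N (XN K m p e h)) :=
    Finset.sum_nonneg fun h _ => add_nonneg (Nat.cast_nonneg _) (bits_nonneg _ _ _ _ _)
  have h4 : 48 * (m : ℝ) / r * ((∑ h, ((P.reads K0 p (XN K m p e h) : ℝ) +
      P.bits K0 p N (XN K m p e h))) * Real.log 2) ≤
      48 * m / r * ∑ h, ((P.reads K0 p (XN K m p e h) : ℝ) + P.bits K0 p N (XN K m p e h)) :=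
    mul_le_mul_of_nonneg_left (mul_le_of_le_one_right h3 h2) (by positivity)
  linarith

/-- the arithmetic for one program -/
theorem arith {n T m ε δ C a b τ B c : ℝ} (hn : 1 ≤ n) (hm : 0 ≤ m) (hC : 0 < C)
    (hδ : δ ≤ ε / 4) (hbig : 144 ≤ n ^ (ε / 2)) (hT1 : 3 * n ^ (2 - ε / 4) ≤ T)
    (hT2 : 4 * m * n ^ (1 - ε / 4) ≤ T) (hε : 0 < ε)
    (hroot : T * a ≤ b + τ + 48 * m / (n ^ (-δ) / 12) * B + 12 * (n ^ (-δ) / 12) * T * C)
    (hτ : 0 ≤ τ) (hB : 0 ≤ B) (hc : (τ + n * B) / (2 * C) ≤ c) :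
    a / (2 * C) - b / (2 * (T * C)) ≤ n ^ (-δ) + c / n ^ (2 - ε) := by
  have hn0 : 0 < n := by linarith
  have q1 : 0 < n ^ (2 - ε / 4) := Real.rpow_pos_of_pos hn0 _
  have q2 : 0 < n ^ (1 - ε / 4) := Real.rpow_pos_of_pos hn0 _
  have q3 : 0 < n ^ (2 - ε) := Real.rpow_pos_of_pos hn0 _
  have q4 : 0 < n ^ (-δ) := Real.rpow_pos_of_pos hn0 _
  have hT0 : 0 < T := by linarith
  have hT3 : n ^ (2 - ε) ≤ T := by
    have : n ^ (2 - ε) ≤ n ^ (2 - ε / 4) := Real.rpow_le_rpow_of_exponent_le hn (by linarith)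
    linarith
  -- the comparison of the sketch term
  have h1 : 48 * m / (n ^ (-δ) / 12) / T ≤ n / n ^ (2 - ε) := by
    rw [div_div, div_le_div_iff₀ (by positivity) q3]
    have e1 : n * (n ^ (-δ) / 12 * T) = n ^ (1 - δ) * T / 12 := by
      rw [show (1 : ℝ) - δ = 1 + -δ by ring, Real.rpow_add hn0, Real.rpow_one]
      ring
    rw [e1]
    have e2 : 4 * m * (n ^ (1 - δ) * n ^ (1 - ε / 4)) ≤ n ^ (1 - δ) * T := by
      have := mul_le_mul_of_nonneg_left hT2 (Real.rpow_pos_of_pos hn0 (1 - δ)).le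
      linarith
    have e3 : 144 * n ^ (2 - ε) ≤ n ^ (1 - δ) * n ^ (1 - ε / 4) := by
      have e4 : n ^ (ε / 2) * n ^ (2 - ε) ≤ n ^ (1 - δ) * n ^ (1 - ε / 4) := by
        rw [← Real.rpow_add hn0, ← Real.rpow_add hn0]
        exact Real.rpow_le_rpow_of_exponent_le hn (by linarith)
      have := mul_le_mul_of_nonneg_right hbig q3.le
      linarith
    have e5 := mul_le_mul_of_nonneg_left e3 (by positivity : 0 ≤ 4 * m)
    linarith
  have h2 : a / (2 * C) - b / (2 * (T * C)) = (T * a - b) / (2 * (T * C)) := by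
    field_simp
  rw [h2]
  have h3 : (T * a - b) / (2 * (T * C)) ≤
      (τ + 48 * m / (n ^ (-δ) / 12) * B + n ^ (-δ) * (T * C)) / (2 * (T * C)) := by
    gcongr
    linarith
  refine h3.trans ?_
  have h4 : (τ + 48 * m / (n ^ (-δ) / 12) * B + n ^ (-δ) * (T * C)) / (2 * (T * C)) =
      τ / T / (2 * C) + (48 * m / (n ^ (-δ) / 12) / T) * B / (2 * C) + n ^ (-δ) / 2 := by
    field_simp
  rw [h4]
  have h5 : τ / T ≤ τ / n ^ (2 - ε) := div_le_div_of_nonneg_left hτ q3 hT3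
  have h6 : τ / T / (2 * C) + (48 * m / (n ^ (-δ) / 12) / T) * B / (2 * C) ≤
      (τ + n * B) / (2 * C) / n ^ (2 - ε) := by
    have e1 : (τ + n * B) / (2 * C) / n ^ (2 - ε) =
        τ / n ^ (2 - ε) / (2 * C) + (n / n ^ (2 - ε)) * B / (2 * C) := by
      field_simp
    rw [e1]
    gcongr
  have h7 : (τ + n * B) / (2 * C) / n ^ (2 - ε) ≤ c / n ^ (2 - ε) := by gcongr
  linarith

open Classical in
theorem dist1 (ε : ℝ) (hε : 0 < ε) (hε1 : ε ≤ 1) : ∃ δ : ℝ, 0 < δ ∧ ∃ n₀ : ℕ,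
    ∀ n N K p : ℕ, n₀ ≤ n → (K : ℝ) ≤ (n : ℝ) ^ δ → 1 ≤ p → (p : ℝ) * (n : ℝ) ^ (1 + ε) ≤ N →
    1 ≤ n ∧ ∃ (I : Type) (_ : Fintype I) (w : I → ℝ) (X : I → Fin n → ℤ), (∀ i, 0 ≤ w i) ∧
      ∑ i, w i = 1 ∧ (∀ i, Valid N (X i)) ∧ ∀ P : Prog n,
        ∑ i, w i * (if P.eval K p (X i) = decide (Solvable (X i)) then 1 else 0) ≤
          1 / 2 + (n : ℝ) ^ (-δ) + (∑ i, w i * P.cost K p N (X i)) / (n : ℝ) ^ (2 - ε) := by
  obtain ⟨δ1, hδ1, n₀, h⟩ := params (ε / 4) (by positivity) (by linarith)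
  refine ⟨min δ1 (ε / 4), lt_min hδ1 (by positivity), max n₀ ⌈(144 : ℝ) ^ (2 / ε)⌉₊,
    fun n N K0 p hn hK0 hp hN => ?_⟩
  have hn1' : (144 : ℝ) ^ (2 / ε) ≤ n :=
    (Nat.le_ceil _).trans (by exact_mod_cast (le_max_right _ _).trans hn)
  have hn1 : (1 : ℝ) ≤ n := by
    refine le_trans ?_ hn1'
    exact Real.one_le_rpow (by norm_num) (by positivity)
  have hbig : (144 : ℝ) ≤ (n : ℝ) ^ (ε / 2) := by
    calc (144 : ℝ) = ((144 : ℝ) ^ (2 / ε)) ^ (ε / 2) := by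
          rw [← Real.rpow_mul (by norm_num)]
          rw [show 2 / ε * (ε / 2) = 1 by field_simp, Real.rpow_one]
      _ ≤ (n : ℝ) ^ (ε / 2) := Real.rpow_le_rpow (by positivity) hn1' (by positivity)
  obtain ⟨δ, hδ⟩ : ∃ δ : ℝ, δ = min δ1 (ε / 4) := ⟨_, rfl⟩
  rw [← hδ] at hK0 ⊢
  obtain ⟨K, m, d, S, τ, H, hKK, hn1N, hT1, hT2⟩ := h n N K0 p ((le_max_left _ _).trans hn)
    (hK0.trans (Real.rpow_le_rpow_of_exponent_le hn1 (by rw [hδ]; exact min_le_left _ _))) hp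
    ((mul_le_mul_of_nonneg_left (Real.rpow_le_rpow_of_exponent_le hn1 (by linarith))
      (Nat.cast_nonneg _)).trans hN)
  refine ⟨hn1N, ?_⟩
  have hcard : (WW m d S τ).card = n := by rw [card_WW]; exact H.hn
  let E := (Finset.equivFinOfCardEq hcard).symm
  let e : Fin n → Fin 4 × ℤ := fun i => (E i).1
  have he : ∀ i, e i ∈ WW m d S τ := fun i => (E i).2
  have hei : Function.Injective e := fun i j hij => E.injective (Subtype.ext hij)
  have hes : ∀ v : Fin 4 × ℤ, ∃ i, v ∈ WW m d S τ → e i = v := fun v => by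
    by_cases hv : v ∈ WW m d S τ
    · obtain ⟨i, hi⟩ := E.surjective ⟨v, hv⟩
      exact ⟨i, fun _ => by simp only [e, hi]⟩
    · exact ⟨⟨0, hn1N⟩, fun h => absurd h hv⟩
  choose ix hix using hes
  have hix' : ∀ v ∈ WW m d S τ, e (ix v) = v := fun v hv => hix v hv
  have hC : (Fintype.card (Cube n) : ℝ) = 2 ^ n := by simp [Cube]
  have hn0 : (0 : ℝ) < n := by linarith
  have hpow : (0 : ℝ) < 2 ^ n := by positivity
  obtain ⟨T, hT⟩ : ∃ T : ℝ, T = (TT S τ).card := ⟨_, rfl⟩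
  have hT0 : 0 < T := by
    have : 0 < (n : ℝ) ^ (2 - ε / 4) := Real.rpow_pos_of_pos hn0 _
    rw [hT]
    linarith
  have vN : ∀ h, Valid N (XN K m p e h) := fun h => XU_valid H he hei (uN_abs h)
  have sN : ∀ h, ¬ Solvable (XN K m p e h) := fun h => XU_not H he hei (uN_abs h) (uN_nonneg h)
  have vY : ∀ t ∈ TT S τ, ∀ h, Valid N (XY K m p e ix t h) := by
    intro t ht h
    obtain ⟨m0, m1, m2⟩ := TT_mem (m := m) (d := d) ht
    exact XU_valid H he hei (uY_abs (ix_ne hix' m0 m1 (by simp)) (ix_ne hix' m0 m2 (by simp))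
      (ix_ne hix' m1 m2 (by simp)) h)
  have sY : ∀ t ∈ TT S τ, ∀ h, Solvable (XY K m p e ix t h) := by
    intro t ht h
    obtain ⟨m0, m1, m2⟩ := TT_mem (m := m) (d := d) ht
    have hab := ix_ne hix' m0 m1 (by simp)
    have hac := ix_ne hix' m0 m2 (by simp)
    have hbc := ix_ne hix' m1 m2 (by simp)
    exact XU_solvable hix' ht (uY_a hab hac h) (uY_b hab hbc h) (uY_c hac hbc h)
  have hsub : ∀ F : ℤ × ℤ → ℝ, ∑ t : {t // t ∈ TT S τ}, F t.1 = ∑ t ∈ TT S τ, F t := fun F =>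
    Finset.sum_coe_sort (TT S τ) F
  refine ⟨Option {t // t ∈ TT S τ} × Cube n, inferInstance,
    fun i => match i.1 with
      | none => 1 / (2 * 2 ^ n)
      | some _ => 1 / (2 * (T * 2 ^ n)),
    fun i => match i.1 with
      | none => XN K m p e i.2
      | some t => XY K m p e ix t.1 i.2, ?_, ?_, ?_, ?_⟩
  · rintro ⟨_ | t, h⟩
    · simp only; positivity
    · simp only; positivity
  · rw [Fintype.sum_prod_type, Fintype.sum_option]
    simp only [Finset.sum_const, Finset.card_univ, nsmul_eq_mul, hC, Fintype.card_coe]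
    rw [← hT]
    field_simp
    norm_num
  · rintro ⟨_ | t, h⟩
    · exact vN h
    · exact vY t.1 t.2 h
  intro P
  rw [Fintype.sum_prod_type, Fintype.sum_option, Fintype.sum_prod_type, Fintype.sum_option]
  simp only
  have e1 : ∀ h, (if P.eval K0 p (XN K m p e h) = decide (Solvable (XN K m p e h)) then (1 : ℝ)
      else 0) = nb (P.eval K0 p (XN K m p e h)) := by
    intro h
    rw [decide_eq_false (sN h)]
    rfl
  have e2 : ∀ t : {t // t ∈ TT S τ}, ∀ h, (if P.eval K0 p (XY K m p e ix t.1 h) =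
      decide (Solvable (XY K m p e ix t.1 h)) then (1 : ℝ) else 0) =
      1 - nb (P.eval K0 p (XY K m p e ix t.1 h)) := by
    intro t h
    rw [decide_eq_true (sY t.1 t.2 h)]
    unfold nb
    cases P.eval K0 p (XY K m p e ix t.1 h) <;> simp
  simp only [e1, e2]
  have f1 : ∑ t : {t // t ∈ TT S τ}, ∑ h, 1 / (2 * (T * 2 ^ n)) *
      (1 - nb (P.eval K0 p (XY K m p e ix t.1 h))) = 1 / 2 -
      (∑ t ∈ TT S τ, ∑ h, nb (P.eval K0 p (XY K m p e ix t h))) / (2 * (T * 2 ^ n)) := by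
    rw [hsub (fun t => ∑ h, 1 / (2 * (T * 2 ^ n)) *
      (1 - nb (P.eval K0 p (XY K m p e ix t h))))]
    simp only [mul_sub, mul_one, Finset.sum_sub_distrib, ← Finset.mul_sum]
    simp only [Finset.sum_const, Finset.card_univ, nsmul_eq_mul, hC]
    rw [← hT]
    field_simp
  have f2 : ∑ h, 1 / (2 * 2 ^ n) * nb (P.eval K0 p (XN K m p e h)) =
      (∑ h, nb (P.eval K0 p (XN K m p e h))) / (2 * 2 ^ n) := by
    rw [← Finset.mul_sum]
    ring
  rw [f1, f2]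
  have hm0 : (0 : ℝ) ≤ m := Nat.cast_nonneg _
  have q4 : 0 < (n : ℝ) ^ (-δ) := Real.rpow_pos_of_pos hn0 _
  have hroot := root' H he hei hix' hKK (r := (n : ℝ) ^ (-δ) / 12) (by positivity) P
  have hlg1 : 1 ≤ Real.logb 2 ((n : ℝ) + 1) := by
    rw [Real.le_logb_iff_rpow_le (by norm_num) (by positivity), Real.rpow_one]
    linarith
  have hfin := arith (n := n) (T := T) (m := m) (ε := ε) (δ := δ) (C := (2 : ℝ) ^ n)
    (a := ∑ h, nb (P.eval K0 p (XN K m p e h)))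
    (b := ∑ t ∈ TT S τ, ∑ h, nb (P.eval K0 p (XY K m p e ix t h)))
    (τ := ∑ h, (P.triples K0 p (XN K m p e h) : ℝ))
    (B := ∑ h, ((P.reads K0 p (XN K m p e h) : ℝ) + P.bits K0 p N (XN K m p e h)))
    (c := ∑ h, 1 / (2 * 2 ^ n) * P.cost K0 p N (XN K m p e h) +
      ∑ t : {t // t ∈ TT S τ}, ∑ h, 1 / (2 * (T * 2 ^ n)) * P.cost K0 p N (XY K m p e ix t.1 h))
    hn1 hm0 hpow (by rw [hδ]; exact min_le_right _ _) hbig (by rw [hT]; exact hT1)
    (by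
      rw [hT]
      refine le_trans ?_ hT2
      have h2 : (n : ℝ) ^ (1 - ε / 4) ≤ ((n : ℝ) ^ (1 - ε / 4) + 1) * Real.logb 2 (n + 1) := by
        have h3 : 0 ≤ (n : ℝ) ^ (1 - ε / 4) := by positivity
        nlinarith
      exact mul_le_mul_of_nonneg_left h2 (by positivity)) hε
    (by rw [hT]; exact hroot) (Finset.sum_nonneg fun h _ => Nat.cast_nonneg _)
    (Finset.sum_nonneg fun h _ => add_nonneg (Nat.cast_nonneg _) (bits_nonneg _ _ _ _ _))
    (by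
      have g1 : (∑ h, (P.triples K0 p (XN K m p e h) : ℝ) + n * ∑ h,
          ((P.reads K0 p (XN K m p e h) : ℝ) + P.bits K0 p N (XN K m p e h))) / (2 * 2 ^ n) =
          ∑ h, 1 / (2 * 2 ^ n) * P.cost K0 p N (XN K m p e h) := by
        have g0 : ∑ h, P.cost K0 p N (XN K m p e h) =
            ∑ h, (P.triples K0 p (XN K m p e h) : ℝ) + n * ∑ h,
              ((P.reads K0 p (XN K m p e h) : ℝ) + P.bits K0 p N (XN K m p e h)) := by
          rw [Finset.mul_sum, ← Finset.sum_add_distrib]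
          rfl
        rw [← Finset.mul_sum, g0]
        ring
      rw [g1]
      have g2 : 0 ≤ ∑ t : {t // t ∈ TT S τ}, ∑ h, 1 / (2 * (T * 2 ^ n)) *
          P.cost K0 p N (XY K m p e ix t.1 h) :=
        Finset.sum_nonneg fun t _ => Finset.sum_nonneg fun h _ =>
          mul_nonneg (by positivity) (cost_nonneg _ _ _ _ _)
      linarith)
  linarith

open Classical in
theorem dist (ε : ℝ) (hε : 0 < ε) : ∃ δ : ℝ, 0 < δ ∧ ∃ n₀ : ℕ,
    ∀ n N K p : ℕ, n₀ ≤ n → (K : ℝ) ≤ (n : ℝ) ^ δ → 1 ≤ p → (p : ℝ) * (n : ℝ) ^ (1 + ε) ≤ N →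
    ∃ (I : Type) (_ : Fintype I) (w : I → ℝ) (X : I → Fin n → ℤ), (∀ i, 0 ≤ w i) ∧
      ∑ i, w i = 1 ∧ (∀ i, Valid N (X i)) ∧
      (∀ P : Prog n,
        ∑ i, w i * (if P.eval K p (X i) = decide (Solvable (X i)) then 1 else 0) ≤
          1 / 2 + (n : ℝ) ^ (-δ) + (∑ i, w i * P.cost K p N (X i)) / (n : ℝ) ^ (2 - ε)) ∧
      ∀ (Ω : Type) [Fintype Ω] (μ : Ω → ℝ), (∀ ω, 0 ≤ μ ω) → ∑ ω, μ ω = 1 → ∀ P : Ω → Prog n,
      (∀ x, Valid N x →
          2 / 3 ≤ ∑ ω, μ ω * (if (P ω).eval K p x = decide (Solvable x) then 1 else 0)) →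
        (n : ℝ) ^ (2 - ε) ≤ ∑ i, w i * ∑ ω, μ ω * (P ω).cost K p N (X i) := by
  obtain ⟨δ, hδ, n₀, h⟩ := dist1 (min (ε / 2) 1) (lt_min (by positivity) one_pos) (min_le_right _ _)
  refine ⟨δ, hδ, max n₀ (max ⌈(12 : ℝ) ^ (1 / δ)⌉₊ ⌈(12 : ℝ) ^ (2 / ε)⌉₊),
    fun n N K p hn hK hp hN => ?_⟩
  have hn0 : n₀ ≤ n := (le_max_left _ _).trans hn
  have hn2 : (12 : ℝ) ^ (1 / δ) ≤ n := (Nat.le_ceil _).trans
    (by exact_mod_cast (le_max_left _ _).trans ((le_max_right _ _).trans hn))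
  have hn3 : (12 : ℝ) ^ (2 / ε) ≤ n := (Nat.le_ceil _).trans
    (by exact_mod_cast (le_max_right _ _).trans ((le_max_right _ _).trans hn))
  have hn1 : (1 : ℝ) ≤ n := le_trans (Real.one_le_rpow (by norm_num) (by positivity)) hn2
  have hpos : (0 : ℝ) < n := by linarith
  have b1 : (12 : ℝ) ≤ (n : ℝ) ^ δ := by
    calc (12 : ℝ) = ((12 : ℝ) ^ (1 / δ)) ^ δ := by
          rw [← Real.rpow_mul (by norm_num), show 1 / δ * δ = 1 by field_simp, Real.rpow_one]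
      _ ≤ (n : ℝ) ^ δ := Real.rpow_le_rpow (by positivity) hn2 hδ.le
  have b2 : (12 : ℝ) ≤ (n : ℝ) ^ (ε / 2) := by
    calc (12 : ℝ) = ((12 : ℝ) ^ (2 / ε)) ^ (ε / 2) := by
          rw [← Real.rpow_mul (by norm_num), show 2 / ε * (ε / 2) = 1 by field_simp, Real.rpow_one]
      _ ≤ (n : ℝ) ^ (ε / 2) := Real.rpow_le_rpow (by positivity) hn3 (by positivity)
  have h1 : (n : ℝ) ^ (1 + min (ε / 2) 1) ≤ (n : ℝ) ^ (1 + ε) :=
    Real.rpow_le_rpow_of_exponent_le hn1 (by linarith [min_le_left (ε / 2) 1])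
  have h2 : (n : ℝ) ^ (2 - ε / 2) ≤ (n : ℝ) ^ (2 - min (ε / 2) 1) :=
    Real.rpow_le_rpow_of_exponent_le hn1 (by linarith [min_le_left (ε / 2) 1])
  have h2' : (n : ℝ) ^ (2 - ε) ≤ (n : ℝ) ^ (2 - ε / 2) :=
    Real.rpow_le_rpow_of_exponent_le hn1 (by linarith)
  obtain ⟨-, I, _, w, X, hw0, hw1, hX, hP⟩ := h n N K p hn0 hK hp
    ((mul_le_mul_of_nonneg_left h1 (Nat.cast_nonneg _)).trans hN)
  have hcost : ∀ P : Prog n, 0 ≤ ∑ i, w i * P.cost K p N (X i) := fun P =>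
    Finset.sum_nonneg fun i _ => mul_nonneg (hw0 i) (cost_nonneg _ _ _ _ _)
  have q1 : 0 < (n : ℝ) ^ (2 - ε) := Real.rpow_pos_of_pos hpos _
  have q2 : 0 < (n : ℝ) ^ (2 - ε / 2) := Real.rpow_pos_of_pos hpos _
  have hP' : ∀ P : Prog n,
        ∑ i, w i * (if P.eval K p (X i) = decide (Solvable (X i)) then 1 else 0) ≤
          1 / 2 + (n : ℝ) ^ (-δ) + (∑ i, w i * P.cost K p N (X i)) / (n : ℝ) ^ (2 - ε / 2) := by
    intro P
    refine (hP P).trans ?_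
    have := div_le_div_of_nonneg_left (hcost P) q2 h2
    linarith
  refine ⟨I, inferInstance, w, X, hw0, hw1, hX, fun P => ?_, ?_⟩
  · refine (hP' P).trans ?_
    have := div_le_div_of_nonneg_left (hcost P) q1 h2'
    linarith
  intro Ω _ μ h0 hs P hc
  obtain ⟨c, hcdef⟩ : ∃ c : ℝ, c = ∑ i, w i * ∑ ω, μ ω * (P ω).cost K p N (X i) := ⟨_, rfl⟩
  rw [← hcdef]
  have k1 : 2 / 3 ≤ ∑ i, w i * ∑ ω, μ ω *
      (if (P ω).eval K p (X i) = decide (Solvable (X i)) then (1 : ℝ) else 0) := by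
    calc (2 / 3 : ℝ) = ∑ i, w i * (2 / 3) := by rw [← Finset.sum_mul, hw1, one_mul]
      _ ≤ _ := Finset.sum_le_sum fun i _ => mul_le_mul_of_nonneg_left (hc (X i) (hX i)) (hw0 i)
  have k2 : ∑ i, w i * ∑ ω, μ ω *
      (if (P ω).eval K p (X i) = decide (Solvable (X i)) then (1 : ℝ) else 0) =
      ∑ ω, μ ω * ∑ i, w i *
        (if (P ω).eval K p (X i) = decide (Solvable (X i)) then (1 : ℝ) else 0) := by
    simp only [Finset.mul_sum]
    rw [Finset.sum_comm]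
    refine Finset.sum_congr rfl fun ω _ => Finset.sum_congr rfl fun i _ => ?_
    ring
  have k3 : c = ∑ ω, μ ω * ∑ i, w i * (P ω).cost K p N (X i) := by
    rw [hcdef]
    simp only [Finset.mul_sum]
    rw [Finset.sum_comm]
    refine Finset.sum_congr rfl fun ω _ => Finset.sum_congr rfl fun i _ => ?_
    ring
  have k4 : ∑ ω, μ ω * ∑ i, w i *
        (if (P ω).eval K p (X i) = decide (Solvable (X i)) then (1 : ℝ) else 0) ≤
      1 / 2 + (n : ℝ) ^ (-δ) + c / (n : ℝ) ^ (2 - ε / 2) := by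
    refine (Finset.sum_le_sum fun ω _ => mul_le_mul_of_nonneg_left (hP' (P ω)) (h0 ω)).trans
      (le_of_eq ?_)
    rw [k3]
    simp only [mul_add]
    rw [Finset.sum_add_distrib, Finset.sum_add_distrib, ← Finset.sum_mul, ← Finset.sum_mul, hs,
      one_mul, one_mul, Finset.sum_div]
    congr 1
    refine Finset.sum_congr rfl fun ω _ => ?_
    ring
  have k5 : (n : ℝ) ^ (-δ) ≤ 1 / 12 := by
    rw [Real.rpow_neg hpos.le, inv_eq_one_div]
    exact div_le_div_of_nonneg_left (by norm_num) (by norm_num) b1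
  have k6 : 1 / 12 ≤ c / (n : ℝ) ^ (2 - ε / 2) := by linarith
  rw [le_div_iff₀ q2] at k6
  have k7 : (n : ℝ) ^ (2 - ε / 2) = (n : ℝ) ^ (2 - ε) * (n : ℝ) ^ (ε / 2) := by
    rw [← Real.rpow_add hpos]; congr 1; ring
  rw [k7] at k6
  have k8 := mul_le_mul_of_nonneg_left b2 q1.le
  linarith

end Pool.Agent.J6H11.Ask
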