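import Pool.Agent.J6H11.Ask.Coset

/-!
# Cosets of subgroups in the cube: the blocks of a matching
-/

set_option autoImplicit false

namespace Pool.Agent.J6H11.Ask

open Finset
open Pool.Agent.J6H11.Lsk (Cube lin base0 upd)

variable {n : ℕ}

/-- flip a block -/
def fl (a b c : Fin n) (u : Bool × Bool × Bool) (h : Cube n) : Cube n := fun i =>
  if i = a then h i ^^ u.1 else if i = b then h i ^^ u.2.1 else if i = c then h i ^^ u.2.2 else h i

theorem fl_inv (a b c : Fin n) (u : Bool × Bool × Bool) :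
    Function.Involutive (fl a b c u) := by
  intro h
  funext i
  unfold fl
  split_ifs <;> simp

theorem fl_of_ne {a b c i : Fin n} (h1 : i ≠ a) (h2 : i ≠ b) (h3 : i ≠ c)
    (u : Bool × Bool × Bool) (h : Cube n) : fl a b c u h i = h i := by
  unfold fl
  rw [if_neg h1, if_neg h2, if_neg h3]

/-- the complement of the pattern `u` -/
def co (u : Bool × Bool × Bool) : Bool × Bool × Bool := (!u.1, !u.2.1, !u.2.2)

/-- the difference of the indicators of `111` and of the complement of `u` -/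
def ff (a b c : Fin n) (u : Bool × Bool × Bool) (h : Cube n) : ℝ :=
  pt a b c (true, true, true) h - pt a b c (co u) h

theorem ff_fl {a b c : Fin n} (hab : a ≠ b) (hac : a ≠ c) (hbc : b ≠ c)
    (u : Bool × Bool × Bool) (h : Cube n) : ff a b c u (fl a b c u h) = -ff a b c u h := by
  have ea : fl a b c u h a = (h a ^^ u.1) := by simp [fl]
  have eb : fl a b c u h b = (h b ^^ u.2.1) := by simp [fl, hab.symm]
  have ec : fl a b c u h c = (h c ^^ u.2.2) := by simp [fl, hac.symm, hbc.symm]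
  obtain ⟨u1, u2, u3⟩ := u
  unfold ff pt co
  rw [ea, eb, ec]
  cases u1 <;> cases u2 <;> cases u3 <;> cases h a <;> cases h b <;> cases h c <;> simp

theorem ff_abs (a b c : Fin n) (u : Bool × Bool × Bool) (h : Cube n) : |ff a b c u h| ≤ 1 := by
  unfold ff pt
  split_ifs <;> simp

theorem ff_congr (a b c : Fin n) (u : Bool × Bool × Bool) {h h' : Cube n} (ha : h a = h' a)
    (hb : h b = h' b) (hc : h c = h' c) : ff a b c u h = ff a b c u h' := by
  unfold ff pt
  rw [ha, hb, hc]

theorem sum_ff (a b c : Fin n) (h : Cube n) :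
    ∑ u : Bool × Bool × Bool, ff a b c u h = 8 * pt a b c (true, true, true) h - 1 := by
  unfold ff
  rw [Finset.sum_sub_distrib]
  have h1 : ∑ u : Bool × Bool × Bool, pt a b c (co u) h = 1 := by
    simp only [Fintype.sum_prod_type, Fintype.sum_bool]
    unfold pt co
    cases h a <;> cases h b <;> cases h c <;> simp
  rw [h1]
  simp

/-- **The blocks of a matching.** -/
theorem matching_le {G ι : Type} [AddCommGroup G] [DecidableEq G] [DecidableEq ι] (g0 : G)
    (gg : Fin n → G) (c0 : G) (B : Finset ι) (k : ι → ℤ) (a b c : ι → Fin n)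
    (hk : ∀ t ∈ B, ∀ t' ∈ B, k t = k t' → t = t')
    (hin : ∀ t ∈ B, a t ≠ b t ∧ a t ≠ c t ∧ b t ≠ c t)
    (hout : ∀ t ∈ B, ∀ t' ∈ B, t ≠ t' → ∀ i, (i = a t ∨ i = b t ∨ i = c t) →
      i ≠ a t' ∧ i ≠ b t' ∧ i ≠ c t')
    (Z : Finset (Cube n)) (hZ : ∀ h, h ∈ Z ↔ lin g0 gg h = c0) {r : ℝ} (hr : 0 < r) :
    ∑ t ∈ B, ((Z.card : ℝ) - ∑ h, (if lin g0 gg (base0 (a t) (b t) (c t) h) +
        (-gg (a t) - gg (b t) - gg (c t)) = c0 then (1 : ℝ) else 0)) ≤
      24 * (Z.card * (Real.log (2 ^ n / Z.card) / r + r * B.card / 2)) := by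
  obtain ⟨W, hW⟩ : ∃ W : ι → Finset (Fin n), W = fun t => Finset.univ.filter fun i =>
    ∃ t' ∈ B, k t' < k t ∧ (i = a t' ∨ i = b t' ∨ i = c t') := ⟨_, rfl⟩
  have hWmem : ∀ t i, i ∈ W t ↔ ∃ t' ∈ B, k t' < k t ∧ (i = a t' ∨ i = b t' ∨ i = c t') := by
    intro t i
    rw [hW]
    simp
  have hWnot : ∀ t ∈ B, ∀ i, (i = a t ∨ i = b t ∨ i = c t) → i ∉ W t := by
    intro t ht i hi hiW
    obtain ⟨t', ht', hlt, hi'⟩ := (hWmem t i).1 hiW
    have hne : t' ≠ t := fun e => by rw [e] at hlt; exact lt_irrefl _ hlt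
    have h1 := hout t' ht' t ht hne i hi'
    rcases hi with h | h | h
    · exact h1.1 h
    · exact h1.2.1 h
    · exact h1.2.2 h
  have hex : ∀ t : ι, ∃ e e' : Cube n → ℝ, t ∈ B → (∀ h, |e h| ≤ 1) ∧ (∀ h, |e' h| ≤ 1) ∧
      (∀ h h', (∀ i ∈ W t, h i = h' i) → e h = e h') ∧
      (∀ h h', (∀ i, i ∉ W t → i ≠ a t → i ≠ b t → i ≠ c t → h i = h' i) → e' h = e' h') ∧
      8 * ∑ h, (if lin g0 gg h = c0 then pt (a t) (b t) (c t) (true, true, true) h else 0) ≤
        ∑ h, (if lin g0 gg (base0 (a t) (b t) (c t) h) + (-gg (a t) - gg (b t) - gg (c t)) = c0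
          then (1 : ℝ) else 0) +
        8 * ∑ h, (if lin g0 gg h = c0 then e h * (pt (a t) (b t) (c t) (true, true, true) h -
          pt (a t) (b t) (c t) (false, false, false) h) else 0) +
        8 * ∑ h, (if lin g0 gg h = c0 then e' h * (pt (a t) (b t) (c t) (true, true, true) h -
          pt (a t) (b t) (c t) (false, false, false) h) else 0) := by
    intro t
    by_cases ht : t ∈ B
    · obtain ⟨e, e', h1⟩ := coset_le g0 gg (hin t ht).1 (hin t ht).2.1 (hin t ht).2.2
        (hWnot t ht _ (Or.inl rfl)) (hWnot t ht _ (Or.inr (Or.inl rfl)))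
        (hWnot t ht _ (Or.inr (Or.inr rfl))) c0
      exact ⟨e, e', fun _ => h1⟩
    · exact ⟨0, 0, fun h => absurd h ht⟩
  choose e e' hee using hex
  have hcard : (Fintype.card (Cube n) : ℝ) = 2 ^ n := by simp [Cube]
  obtain ⟨L, hL⟩ : ∃ L : ℝ, L = Z.card * (Real.log (2 ^ n / Z.card) / r + r * B.card / 2) :=
    ⟨_, rfl⟩
  -- the sums over `Z`
  have hZsum : ∀ f : Cube n → ℝ, ∑ h, (if lin g0 gg h = c0 then f h else 0) = ∑ h ∈ Z, f h := by
    intro f
    rw [← Finset.sum_filter]
    refine Finset.sum_congr ?_ fun _ _ => rfl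
    ext h
    rw [hZ h]
    simp
  -- flips do not change other blocks
  have hother : ∀ t ∈ B, ∀ t' ∈ B, t ≠ t' → ∀ u v h,
      ff (a t') (b t') (c t') v (fl (a t) (b t) (c t) u h) = ff (a t') (b t') (c t') v h := by
    intro t ht t' ht' hne u v h
    have h1 := hout t' ht' t ht hne.symm
    have ha := h1 (a t') (Or.inl rfl)
    have hb := h1 (b t') (Or.inr (Or.inl rfl))
    have hc := h1 (c t') (Or.inr (Or.inr rfl))
    exact ff_congr _ _ _ _ (fl_of_ne ha.1 ha.2.1 ha.2.2 _ _) (fl_of_ne hb.1 hb.2.1 hb.2.2 _ _)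
      (fl_of_ne hc.1 hc.2.1 hc.2.2 _ _)
  -- first kind
  have i1 : ∀ u : Bool × Bool × Bool, ∑ t ∈ B, ∑ h ∈ Z, -ff (a t) (b t) (c t) u h ≤ L := by
    intro u
    have h1 := level_key (fun t h => -ff (a t) (b t) (c t) u h)
      (fun t => fl (a t) (b t) (c t) u) k B (fun t _ => fl_inv _ _ _ _)
      (fun t ht h => by
        rw [ff_fl (hin t ht).1 (hin t ht).2.1 (hin t ht).2.2])
      (fun t ht t' ht' hne _ h => by
        rw [hother t ht t' ht' hne])
      (fun t _ h => by
        rw [abs_neg]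
        exact ff_abs _ _ _ _ _) Z hr
    rw [hcard, ← hL] at h1
    exact h1
  have i2 : ∑ t ∈ B, ∑ h ∈ Z, e t h * ff (a t) (b t) (c t) (true, true, true) h ≤ L := by
    have h1 := level_key (fun t h => e t h * ff (a t) (b t) (c t) (true, true, true) h)
      (fun t => fl (a t) (b t) (c t) (true, true, true)) k B (fun t _ => fl_inv _ _ _ _)
      (fun t ht h => by
        rw [ff_fl (hin t ht).1 (hin t ht).2.1 (hin t ht).2.2]
        have h2 : e t (fl (a t) (b t) (c t) (true, true, true) h) = e t h := by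
          refine (hee t ht).2.2.1 _ _ fun i hi => ?_
          refine fl_of_ne ?_ ?_ ?_ _ _
          · exact fun h3 => hWnot t ht i (Or.inl h3) hi
          · exact fun h3 => hWnot t ht i (Or.inr (Or.inl h3)) hi
          · exact fun h3 => hWnot t ht i (Or.inr (Or.inr h3)) hi
        rw [h2]
        ring)
      (fun t ht t' ht' hne hle h => by
        rw [hother t ht t' ht' hne]
        congr 1
        refine (hee t' ht').2.2.1 _ _ fun i hi => ?_
        obtain ⟨t'', ht'', hlt, hi'⟩ := (hWmem t' i).1 hi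
        have hne' : t'' ≠ t := fun e => by
          rw [e] at hlt
          exact absurd (lt_of_lt_of_le hlt hle) (lt_irrefl _)
        have h3 := hout t'' ht'' t ht hne' i hi'
        exact fl_of_ne h3.1 h3.2.1 h3.2.2 _ _)
      (fun t ht h => by
        rw [abs_mul]
        exact mul_le_one₀ ((hee t ht).1 h) (abs_nonneg _) (ff_abs _ _ _ _ _)) Z hr
    rw [hcard, ← hL] at h1
    exact h1
  have i3 : ∑ t ∈ B, ∑ h ∈ Z, e' t h * ff (a t) (b t) (c t) (true, true, true) h ≤ L := by
    have h1 := level_key (fun t h => e' t h * ff (a t) (b t) (c t) (true, true, true) h)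
      (fun t => fl (a t) (b t) (c t) (true, true, true)) (fun t => -k t) B
      (fun t _ => fl_inv _ _ _ _)
      (fun t ht h => by
        rw [ff_fl (hin t ht).1 (hin t ht).2.1 (hin t ht).2.2]
        have h2 : e' t (fl (a t) (b t) (c t) (true, true, true) h) = e' t h :=
          (hee t ht).2.2.2.1 _ _ fun i _ ha hb hc => fl_of_ne ha hb hc _ _
        rw [h2]
        ring)
      (fun t ht t' ht' hne hle h => by
        rw [hother t ht t' ht' hne]
        congr 1
        refine (hee t' ht').2.2.2.1 _ _ fun i hi _ _ _ => ?_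
        have hlt : k t < k t' := by
          refine lt_of_le_of_ne (by omega) fun e => hne (hk t ht t' ht' e)
        refine fl_of_ne ?_ ?_ ?_ _ _
        · exact fun h3 => hi ((hWmem t' i).2 ⟨t, ht, hlt, Or.inl h3⟩)
        · exact fun h3 => hi ((hWmem t' i).2 ⟨t, ht, hlt, Or.inr (Or.inl h3)⟩)
        · exact fun h3 => hi ((hWmem t' i).2 ⟨t, ht, hlt, Or.inr (Or.inr h3)⟩))
      (fun t ht h => by
        rw [abs_mul]
        exact mul_le_one₀ ((hee t ht).2.1 h) (abs_nonneg _) (ff_abs _ _ _ _ _)) Z hr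
    rw [hcard, ← hL] at h1
    exact h1
  -- one block
  have key : ∀ t ∈ B, ((Z.card : ℝ) - ∑ h, (if lin g0 gg (base0 (a t) (b t) (c t) h) +
        (-gg (a t) - gg (b t) - gg (c t)) = c0 then (1 : ℝ) else 0)) ≤
      ∑ u : Bool × Bool × Bool, ∑ h ∈ Z, -ff (a t) (b t) (c t) u h +
      8 * ∑ h ∈ Z, e t h * ff (a t) (b t) (c t) (true, true, true) h +
      8 * ∑ h ∈ Z, e' t h * ff (a t) (b t) (c t) (true, true, true) h := by
    intro t ht
    have h1 := (hee t ht).2.2.2.2
    rw [hZsum, hZsum, hZsum] at h1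
    have h2 : ∑ u : Bool × Bool × Bool, ∑ h ∈ Z, -ff (a t) (b t) (c t) u h =
        Z.card - 8 * ∑ h ∈ Z, pt (a t) (b t) (c t) (true, true, true) h := by
      rw [Finset.sum_comm]
      have h3 : ∀ h ∈ Z, ∑ u : Bool × Bool × Bool, -ff (a t) (b t) (c t) u h =
          1 - 8 * pt (a t) (b t) (c t) (true, true, true) h := by
        intro h _
        rw [Finset.sum_neg_distrib, sum_ff]
        ring
      rw [Finset.sum_congr rfl h3, Finset.sum_sub_distrib, ← Finset.mul_sum]
      simp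
    have h4 : ∀ f : Cube n → ℝ, ∑ h ∈ Z, f h * (pt (a t) (b t) (c t) (true, true, true) h -
        pt (a t) (b t) (c t) (false, false, false) h) =
        ∑ h ∈ Z, f h * ff (a t) (b t) (c t) (true, true, true) h := fun f => rfl
    rw [h4, h4] at h1
    rw [h2]
    linarith
  refine (Finset.sum_le_sum key).trans ?_
  rw [Finset.sum_add_distrib, Finset.sum_add_distrib, ← Finset.mul_sum, ← Finset.mul_sum,
    Finset.sum_comm]
  have i4 : ∑ u : Bool × Bool × Bool, ∑ t ∈ B, ∑ h ∈ Z, -ff (a t) (b t) (c t) u h ≤ 8 * L := by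
    refine (Finset.sum_le_sum fun u _ => i1 u).trans (le_of_eq ?_)
    simp
  rw [← hL]
  linarith

end Pool.Agent.J6H11.Ask
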