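import Pool.Agent.J6H11.Ask.Tree
import Pool.Agent.J6H11.Lsk.Main

/-!
# The main theorem
-/

set_option autoImplicit false

namespace Pool.Agent.J6H11.Ask

open Finset
open Pool.Agent.J6H11.Lsk (Cube XU uN uY TT_mem ix_ne uN_abs uN_nonneg uY_abs XU_valid XU_not
  XU_solvable uY_a uY_b uY_c endgame)
open Pool.Agent.J6H11.Sk3 hiding Prog

theorem bits_nonneg {n : ℕ} (K p N : ℕ) (x : Fin n → ℤ) (P : Prog n) : 0 ≤ P.bits K p N x := by
  induction P with
  | answer b => simp [Prog.bits]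
  | digits i next ih => simp only [Prog.bits]; exact ih _ _
  | pair i j next ih => simp only [Prog.bits]; exact ih _
  | triple i j k next ih => simp only [Prog.bits]; exact ih _
  | read i next ih => simp only [Prog.bits]; exact ih _
  | sketch G φ next ih =>
    simp only [Prog.bits]
    have h1 : 0 ≤ Real.logb 2 (values N φ) :=
      Real.logb_nonneg (by norm_num) (by exact_mod_cast Pool.Agent.J6H11.Lsk.values_pos N φ)
    have := ih (φ x)
    linarith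

variable {n N K m d p : ℕ} {S : Finset ℤ} {τ : ℤ}

/-- the inequality at the root -/
theorem root (H : Setup n N K m d p S τ) {e : Fin n → Fin 4 × ℤ}
    (he : ∀ i, e i ∈ WW m d S τ) (hei : Function.Injective e) {ix : Fin 4 × ℤ → Fin n}
    (hix : ∀ v ∈ WW m d S τ, e (ix v) = v) {K0 : ℕ} (hK0 : K0 ≤ K) (P : Prog n) :
    (TT S τ).card * ∑ h : Cube n, nb (P.eval K0 p (XN K m p e h)) ≤
      ∑ t ∈ TT S τ, ∑ h, nb (P.eval K0 p (XY K m p e ix t h)) +
      ∑ h, (P.triples K0 p (XN K m p e h) : ℝ) +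
      6912 * m * ∑ h, ((P.reads K0 p (XN K m p e h) : ℝ) + P.bits K0 p N (XN K m p e h)) +
      2 ^ n * ((TT S τ).card / 12) := by
  have h1 := inv_prog H he hei hix hK0 (r := 1 / 144) (by norm_num) P ℤ 0 0 (TT S τ)
    (Finset.Subset.refl _) Finset.univ (by simp)
  have hcard : ((Finset.univ : Finset (Cube n)).card : ℝ) = 2 ^ n := by simp [Cube]
  simp only [AddMonoidHom.zero_apply, if_true] at h1
  rw [hcard, div_self (by positivity : (2 : ℝ) ^ n ≠ 0), Real.log_one, mul_zero, add_zero,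
    ← Finset.sum_mul] at h1
  have h2 : Real.log 2 ≤ 1 := by
    have := Real.log_two_lt_d9
    linarith
  have h3 : 0 ≤ ∑ h, ((P.reads K0 p (XN K m p e h) : ℝ) + P.bits K0 p N (XN K m p e h)) :=
    Finset.sum_nonneg fun h _ => add_nonneg (Nat.cast_nonneg _) (bits_nonneg _ _ _ _ _)
  have hm0 : (0 : ℝ) ≤ m := Nat.cast_nonneg _
  have h4 : 48 * (m : ℝ) / (1 / 144) * ((∑ h, ((P.reads K0 p (XN K m p e h) : ℝ) +
      P.bits K0 p N (XN K m p e h))) * Real.log 2) ≤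
      6912 * m * ∑ h, ((P.reads K0 p (XN K m p e h) : ℝ) + P.bits K0 p N (XN K m p e h)) := by
    have e1 : 48 * (m : ℝ) / (1 / 144) = 6912 * m := by ring
    rw [e1]
    refine mul_le_mul_of_nonneg_left ?_ (by positivity)
    exact mul_le_of_le_one_right h3 h2
  have e2 : 12 * (1 / 144) * ((TT S τ).card : ℝ) * 2 ^ n = 2 ^ n * ((TT S τ).card / 12) := by ring
  rw [e2] at h1
  linarith

open Classical in
theorem main1 (ε : ℝ) (hε : 0 < ε) (hε1 : ε ≤ 1) : ∃ δ : ℝ, 0 < δ ∧ ∃ n₀ : ℕ,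
    ∀ n N K p : ℕ, n₀ ≤ n → (K : ℝ) ≤ (n : ℝ) ^ δ → 1 ≤ p → (p : ℝ) * (n : ℝ) ^ (1 + ε) ≤ N →
    1 ≤ n ∧ ∃ X : (Fin n → Bool) → Fin n → ℤ, (∀ h, Valid N (X h) ∧ ¬ Solvable (X h)) ∧
      ∀ (Ω : Type) [Fintype Ω] (μ : Ω → ℝ), (∀ ω, 0 ≤ μ ω) → ∑ ω, μ ω = 1 → ∀ P : Ω → Prog n,
      (∀ x, Valid N x →
          2 / 3 ≤ ∑ ω, μ ω * (if (P ω).eval K p x = decide (Solvable x) then 1 else 0)) →
        2 ^ n * (n : ℝ) ^ (2 - ε) ≤ ∑ h, ∑ ω, μ ω * (P ω).cost K p N (X h) := by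
  obtain ⟨δ, hδ, n₀, h⟩ := params (ε / 2) (by positivity) (by linarith)
  refine ⟨δ, hδ, max n₀ ⌈(55296 : ℝ) ^ (2 / ε)⌉₊, fun n N K0 p hn hK0 hp hN => ?_⟩
  have hn1' : (55296 : ℝ) ^ (2 / ε) ≤ n :=
    (Nat.le_ceil _).trans (by exact_mod_cast (le_max_right _ _).trans hn)
  have hn1 : (1 : ℝ) ≤ n := by
    refine le_trans ?_ hn1'
    exact Real.one_le_rpow (by norm_num) (by positivity)
  have hbig : (55296 : ℝ) ≤ (n : ℝ) ^ (ε / 2) := by
    calc (55296 : ℝ) = ((55296 : ℝ) ^ (2 / ε)) ^ (ε / 2) := by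
          rw [← Real.rpow_mul (by norm_num)]
          rw [show 2 / ε * (ε / 2) = 1 by field_simp, Real.rpow_one]
      _ ≤ (n : ℝ) ^ (ε / 2) := Real.rpow_le_rpow (by positivity) hn1' (by positivity)
  obtain ⟨K, m, d, S, τ, H, hKK, hn1N, hT1, hT2⟩ := h n N K0 p ((le_max_left _ _).trans hn) hK0 hp
    ((mul_le_mul_of_nonneg_left (Real.rpow_le_rpow_of_exponent_le hn1 (by linarith))
      (Nat.cast_nonneg _)).trans hN)
  refine ⟨hn1N, ?_⟩
  have hcard : (WW m d S τ).card = n := by rw [card_WW]; exact H.hn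
  let E := (Finset.equivFinOfCardEq hcard).symm
  let e : Fin n → Fin 4 × ℤ := fun i => (E i).1
  have he : ∀ i, e i ∈ WW m d S τ := fun i => (E i).2
  have hei : Function.Injective e := fun i j hij => E.injective (Subtype.ext hij)
  have hes : ∀ v : Fin 4 × ℤ, ∃ i, v ∈ WW m d S τ → e i = v := fun v => by
    by_cases hv : v ∈ WW m d S τ
    · obtain ⟨i, hi⟩ := E.surjective ⟨v, hv⟩
      exact ⟨i, fun _ => by simp only [e, hi]⟩
    · exact ⟨⟨0, hn1N⟩, fun h => absurd h hv⟩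
  choose ix hix using hes
  have hix' : ∀ v ∈ WW m d S τ, e (ix v) = v := fun v hv => hix v hv
  refine ⟨XN K m p e, fun h => ⟨XU_valid H he hei (uN_abs h),
    XU_not H he hei (uN_abs h) (uN_nonneg h)⟩, ?_⟩
  intro Ω _ μ h0 h1 P hcor
  have hC : (Fintype.card (Cube n) : ℝ) = 2 ^ n := by simp [Cube]
  -- the answers for the instances without solution
  have hno : (2 : ℝ) ^ n * (2 / 3) ≤ ∑ ω, μ ω * ∑ h, nb ((P ω).eval K0 p (XN K m p e h)) := by
    have h2 : ∀ h : Cube n, 2 / 3 ≤ ∑ ω, μ ω * nb ((P ω).eval K0 p (XN K m p e h)) := by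
      intro h
      have h3 := hcor (XN K m p e h) (XU_valid H he hei (uN_abs h))
      have h4 : ¬ Solvable (XN K m p e h) := XU_not H he hei (uN_abs h) (uN_nonneg h)
      rw [decide_eq_false h4] at h3
      exact h3
    have h3 : ∑ ω, μ ω * ∑ h, nb ((P ω).eval K0 p (XN K m p e h)) =
        ∑ h : Cube n, ∑ ω, μ ω * nb ((P ω).eval K0 p (XN K m p e h)) := by
      rw [Finset.sum_comm]
      exact Finset.sum_congr rfl fun ω _ => Finset.mul_sum _ _ _
    rw [h3]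
    have h4 : ∑ _h : Cube n, (2 / 3 : ℝ) ≤
        ∑ h : Cube n, ∑ ω, μ ω * nb ((P ω).eval K0 p (XN K m p e h)) :=
      Finset.sum_le_sum fun h _ => h2 h
    refine le_trans (le_of_eq ?_) h4
    rw [Finset.sum_const, Finset.card_univ, nsmul_eq_mul, hC]
  -- the answers for the instances with a solution
  have hyes : ∑ ω, μ ω * ∑ t ∈ TT S τ, ∑ h, nb ((P ω).eval K0 p (XY K m p e ix t h)) ≤
      ((TT S τ).card : ℝ) * (2 ^ n * (1 / 3)) := by
    have h2 : ∑ ω, μ ω * ∑ t ∈ TT S τ, ∑ h, nb ((P ω).eval K0 p (XY K m p e ix t h)) =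
        ∑ t ∈ TT S τ, ∑ h : Cube n, ∑ ω, μ ω * nb ((P ω).eval K0 p (XY K m p e ix t h)) := by
      simp only [Finset.mul_sum]
      rw [Finset.sum_comm]
      refine Finset.sum_congr rfl fun t _ => ?_
      rw [Finset.sum_comm]
    rw [h2]
    have h3 : ∀ t ∈ TT S τ, ∑ h : Cube n, ∑ ω, μ ω * nb ((P ω).eval K0 p (XY K m p e ix t h)) ≤
        2 ^ n * (1 / 3) := by
      intro t ht
      obtain ⟨m0, m1, m2⟩ := TT_mem (m := m) (d := d) ht
      have hab := ix_ne hix' m0 m1 (by simp)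
      have hac := ix_ne hix' m0 m2 (by simp)
      have hbc := ix_ne hix' m1 m2 (by simp)
      have h4 : ∀ h : Cube n, ∑ ω, μ ω * nb ((P ω).eval K0 p (XY K m p e ix t h)) ≤ 1 / 3 := by
        intro h
        have h5 := hcor (XY K m p e ix t h) (XU_valid H he hei (uY_abs hab hac hbc h))
        have h6 : Solvable (XY K m p e ix t h) :=
          XU_solvable hix' ht (uY_a hab hac h) (uY_b hab hbc h) (uY_c hac hbc h)
        rw [decide_eq_true h6] at h5
        have h7 : ∑ ω, (μ ω * nb ((P ω).eval K0 p (XY K m p e ix t h)) +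
            μ ω * (if (P ω).eval K0 p (XY K m p e ix t h) = true then (1 : ℝ) else 0)) =
            ∑ ω, μ ω := by
          refine Finset.sum_congr rfl fun ω _ => ?_
          unfold nb
          cases h8 : (P ω).eval K0 p (XY K m p e ix t h) <;> simp
        rw [Finset.sum_add_distrib, h1] at h7
        linarith
      refine (Finset.sum_le_sum fun h _ => h4 h).trans (le_of_eq ?_)
      rw [Finset.sum_const, Finset.card_univ, nsmul_eq_mul, hC]
    refine (Finset.sum_le_sum h3).trans (le_of_eq ?_)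
    rw [Finset.sum_const, nsmul_eq_mul]
  -- the inequality for all programs
  obtain ⟨A, hA⟩ : ∃ A : ℝ, A = ∑ ω, μ ω * ∑ h, ((P ω).triples K0 p (XN K m p e h) : ℝ) :=
    ⟨_, rfl⟩
  obtain ⟨L, hL⟩ : ∃ L : ℝ, L = (∑ ω, μ ω * ∑ h, (((P ω).reads K0 p (XN K m p e h) : ℝ) +
    (P ω).bits K0 p N (XN K m p e h))) / 2 ^ n := ⟨_, rfl⟩
  have hL' : ∑ ω, μ ω * ∑ h, (((P ω).reads K0 p (XN K m p e h) : ℝ) +
    (P ω).bits K0 p N (XN K m p e h)) = 2 ^ n * L := by
    rw [hL]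
    field_simp
  have hsum : ((TT S τ).card : ℝ) * ∑ ω, μ ω * ∑ h, nb ((P ω).eval K0 p (XN K m p e h)) ≤
      ∑ ω, μ ω * ∑ t ∈ TT S τ, ∑ h, nb ((P ω).eval K0 p (XY K m p e ix t h)) + A +
      6912 * m * (2 ^ n * L) + 2 ^ n * ((TT S τ).card / 12) := by
    have h2 := Finset.sum_le_sum fun ω (_ : ω ∈ (Finset.univ : Finset Ω)) =>
      mul_le_mul_of_nonneg_left (root H he hei hix' hKK (P ω)) (h0 ω)
    have h3 : (2 : ℝ) ^ n * ((TT S τ).card / 12) =
        ∑ ω, μ ω * (2 ^ n * ((TT S τ).card / 12)) := by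
      rw [← Finset.sum_mul, h1, one_mul]
    rw [← hL', hA, h3, Finset.mul_sum, Finset.mul_sum, ← Finset.sum_add_distrib,
      ← Finset.sum_add_distrib, ← Finset.sum_add_distrib]
    refine le_trans (le_of_eq ?_) (h2.trans (le_of_eq ?_))
    · refine Finset.sum_congr rfl fun ω _ => ?_
      ring
    · refine Finset.sum_congr rfl fun ω _ => ?_
      ring
  -- the costs
  have hcost : ∑ h : Cube n, ∑ ω, μ ω * (P ω).cost K0 p N (XN K m p e h) =
      A + 2 ^ n * (n * L) := by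
    have h2 : (2 : ℝ) ^ n * (n * L) = n * (2 ^ n * L) := by ring
    rw [h2, ← hL', hA, Finset.sum_comm, Finset.mul_sum, ← Finset.sum_add_distrib]
    refine Finset.sum_congr rfl fun ω _ => ?_
    rw [← Finset.mul_sum]
    unfold Prog.cost
    rw [Finset.sum_add_distrib, ← Finset.mul_sum]
    ring
  have hA0 : 0 ≤ A := by
    rw [hA]
    exact Finset.sum_nonneg fun ω _ => mul_nonneg (h0 ω)
      (Finset.sum_nonneg fun h _ => Nat.cast_nonneg _)
  have hL0 : 0 ≤ L := by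
    rw [hL]
    refine div_nonneg (Finset.sum_nonneg fun ω _ => mul_nonneg (h0 ω)
      (Finset.sum_nonneg fun h _ => add_nonneg (Nat.cast_nonneg _) (bits_nonneg _ _ _ _ _)))
      (by positivity)
  have hlg1 : 1 ≤ Real.logb 2 ((n : ℝ) + 1) := by
    rw [Real.le_logb_iff_rpow_le (by norm_num) (by positivity), Real.rpow_one]
    linarith
  have hm0 : (0 : ℝ) ≤ m := Nat.cast_nonneg _
  refine endgame (T := (TT S τ).card) (m := m) (C := (2 : ℝ) ^ n) (A := A) (L := L) hn1 hm0 hbig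
    ?_ ?_ (by positivity) ?_ hL0 hA0 hcost
  · exact hT1
  · refine le_trans ?_ hT2
    have h2 : (n : ℝ) ^ (1 - ε / 2) ≤ ((n : ℝ) ^ (1 - ε / 2) + 1) * Real.logb 2 (n + 1) := by
      have h3 : 0 ≤ (n : ℝ) ^ (1 - ε / 2) := by positivity
      nlinarith
    exact mul_le_mul_of_nonneg_left h2 (by positivity)
  · have h2 : ((TT S τ).card : ℝ) * ((2 : ℝ) ^ n * (2 / 3)) ≤
        (TT S τ).card * ∑ ω, μ ω * ∑ h, nb ((P ω).eval K0 p (XN K m p e h)) :=
      mul_le_mul_of_nonneg_left hno (Nat.cast_nonneg _)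
    have h3 : (6912 : ℝ) * m * (2 ^ n * L) ≤ 2 ^ n * (27648 * m * L) := by
      have h4 : 0 ≤ (m : ℝ) * L * 2 ^ n := by positivity
      nlinarith
    linarith

open Classical in
theorem main (ε : ℝ) (hε : 0 < ε) : ∃ δ : ℝ, 0 < δ ∧ ∃ n₀ : ℕ,
    ∀ n N K p : ℕ, n₀ ≤ n → (K : ℝ) ≤ (n : ℝ) ^ δ → 1 ≤ p → (p : ℝ) * (n : ℝ) ^ (1 + ε) ≤ N →
    ∃ X : (Fin n → Bool) → Fin n → ℤ, (∀ h, Valid N (X h) ∧ ¬ Solvable (X h)) ∧
      ∀ (Ω : Type) [Fintype Ω] (μ : Ω → ℝ), (∀ ω, 0 ≤ μ ω) → ∑ ω, μ ω = 1 → ∀ P : Ω → Prog n,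
      (∀ x, Valid N x →
          2 / 3 ≤ ∑ ω, μ ω * (if (P ω).eval K p x = decide (Solvable x) then 1 else 0)) →
        2 ^ n * (n : ℝ) ^ (2 - ε) ≤ ∑ h, ∑ ω, μ ω * (P ω).cost K p N (X h) := by
  obtain ⟨δ, hδ, n₀, h⟩ := main1 (min ε 1) (lt_min hε one_pos) (min_le_right _ _)
  refine ⟨δ, hδ, max n₀ 1, fun n N K p hn hK hp hN => ?_⟩
  have hn0 : n₀ ≤ n := (le_max_left _ _).trans hn
  have hn1 : (1 : ℝ) ≤ n := by exact_mod_cast (le_max_right _ _).trans hn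
  have h1 : (n : ℝ) ^ (1 + min ε 1) ≤ (n : ℝ) ^ (1 + ε) :=
    Real.rpow_le_rpow_of_exponent_le hn1 (by linarith [min_le_left ε 1])
  have h2 : (n : ℝ) ^ (2 - ε) ≤ (n : ℝ) ^ (2 - min ε 1) :=
    Real.rpow_le_rpow_of_exponent_le hn1 (by linarith [min_le_left ε 1])
  obtain ⟨-, X, hX, h3⟩ := h n N K p hn0 hK hp
    ((mul_le_mul_of_nonneg_left h1 (Nat.cast_nonneg _)).trans hN)
  exact ⟨X, hX, fun Ω _ μ h0 hs P hc =>
    (mul_le_mul_of_nonneg_left h2 (by positivity)).trans (h3 Ω μ h0 hs P hc)⟩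

end Pool.Agent.J6H11.Ask
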