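import Pool.Agent.J6H11.Ask.Leaf
import Pool.Agent.J6H11.Ask.Def
import Pool.Agent.J6H11.Lsk.One

/-!
# The inequality for all programs
-/

set_option autoImplicit false

namespace Pool.Agent.J6H11.Ask

open Finset
open Pool.Agent.J6H11.Lsk (Cube lin base0 upd XU uN uY gv phi_N phi_Y TT_mem ix_ne XU_digits XU_pair
  XU_signs uN_abs uN_nonneg uY_abs uY_neg XU_valid)
open Pool.Agent.J6H11.Sk3 hiding Prog

/-- the indicator of the answer no -/
def nb (b : Bool) : ℝ := if b = false then 1 else 0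

theorem nb_nonneg (b : Bool) : 0 ≤ nb b := by
  unfold nb; split_ifs <;> norm_num

theorem nb_le (b : Bool) : nb b ≤ 1 := by
  unfold nb; split_ifs <;> norm_num

/-- splitting a set -/
theorem entropy_le {H G : Type} [DecidableEq G] (Z : Finset H) (f : H → G) (n : ℕ) :
    ∑ g ∈ Z.image f, ((Z.filter fun h => f h = g).card : ℝ) *
        Real.log (2 ^ n / (Z.filter fun h => f h = g).card) ≤
      Z.card * Real.log (2 ^ n / Z.card) + Z.card * Real.log (Z.image f).card := by
  rcases Z.eq_empty_or_nonempty with hZ | hZ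
  · subst hZ; simp
  have hz : (0 : ℝ) < Z.card := by exact_mod_cast hZ.card_pos
  have hv : (0 : ℝ) < (Z.image f).card := by exact_mod_cast (hZ.image f).card_pos
  have hne : ∀ g ∈ Z.image f, (0 : ℝ) < (Z.filter fun h => f h = g).card := by
    intro g hg
    obtain ⟨h, hh, rfl⟩ := Finset.mem_image.1 hg
    have h1 : h ∈ Z.filter (fun h' => f h' = f h) := Finset.mem_filter.2 ⟨hh, rfl⟩
    exact_mod_cast Finset.card_pos.2 ⟨h, h1⟩
  have hsum : ∑ g ∈ Z.image f, ((Z.filter fun h => f h = g).card : ℝ) = Z.card := by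
    rw [Finset.card_eq_sum_card_image f Z]
    push_cast
    rfl
  have h1 : ∀ g ∈ Z.image f, ((Z.filter fun h => f h = g).card : ℝ) *
      Real.log (2 ^ n / (Z.filter fun h => f h = g).card) ≤
      ((Z.filter fun h => f h = g).card : ℝ) *
        (Real.log (2 ^ n / Z.card) + Real.log (Z.image f).card) +
      (Z.card / (Z.image f).card - (Z.filter fun h => f h = g).card) := by
    intro g hg
    have hg0 := hne g hg
    obtain ⟨y, hy⟩ : ∃ y : ℝ, y = ((Z.filter fun h => f h = g).card : ℝ) := ⟨_, rfl⟩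
    rw [← hy] at hg0 ⊢
    have e1 : (2 : ℝ) ^ n / y = (2 ^ n / Z.card) * ((Z.image f).card *
        (Z.card / ((Z.image f).card * y))) := by
      field_simp
    have e2 : Real.log (2 ^ n / y) = Real.log (2 ^ n / Z.card) + (Real.log (Z.image f).card +
        Real.log (Z.card / ((Z.image f).card * y))) := by
      rw [e1, Real.log_mul (by positivity) (by positivity), Real.log_mul (by positivity)
        (by positivity)]
    have e3 := Real.log_le_sub_one_of_pos (show 0 < (Z.card : ℝ) / ((Z.image f).card * y) by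
      positivity)
    have e4 : y * ((Z.card : ℝ) / ((Z.image f).card * y) - 1) = Z.card / (Z.image f).card - y := by
      field_simp
    rw [e2]
    have e5 := mul_le_mul_of_nonneg_left e3 hg0.le
    rw [e4] at e5
    linarith
  refine (Finset.sum_le_sum h1).trans (le_of_eq ?_)
  rw [Finset.sum_add_distrib, ← Finset.sum_mul, hsum, Finset.sum_sub_distrib, hsum]
  simp only [Finset.sum_const, nsmul_eq_mul]
  field_simp
  ring

section

variable {n : ℕ}

open Classical in
/-- the inequality, for a program with answer `f`, number of comparisons `tr` and number of bits `bt` -/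
def Inv (XN : Cube n → Fin n → ℤ) (XY : ℤ × ℤ → Cube n → Fin n → ℤ) (T : Finset (ℤ × ℤ)) (κ ρ : ℝ)
    (f : (Fin n → ℤ) → Bool) (tr bt : (Fin n → ℤ) → ℝ) : Prop :=
  ∀ (G : Type) [AddCommGroup G] (Φ : (Fin n → ℤ) →+ G) (c : G) (R : Finset (ℤ × ℤ)), R ⊆ T →
    ∀ Z : Finset (Cube n), (∀ h, h ∈ Z ↔ Φ (XN h) = c) →
    R.card * ∑ h ∈ Z, nb (f (XN h)) ≤
      ∑ t ∈ R, ∑ h, (if Φ (XY t h) = c then nb (f (XY t h)) else 0) + ∑ h ∈ Z, tr (XN h) +
      κ * (∑ h ∈ Z, bt (XN h) * Real.log 2 + Z.card * Real.log (2 ^ n / Z.card)) + ρ * Z.card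

theorem Inv.split {XN : Cube n → Fin n → ℤ} {XY : ℤ × ℤ → Cube n → Fin n → ℤ}
    {T : Finset (ℤ × ℤ)} {κ ρ : ℝ} (hκ : 0 ≤ κ) {G : Type} [AddCommGroup G]
    (φ : (Fin n → ℤ) →+ G) {f : G → (Fin n → ℤ) → Bool} {tr bt : G → (Fin n → ℤ) → ℝ}
    (hi : ∀ g, Inv XN XY T κ ρ (f g) (tr g) (bt g)) {b : ℝ}
    (hb : ∀ V : Finset G, (∀ g ∈ V, ∃ h, φ (XN h) = g) → Real.log V.card ≤ b * Real.log 2) :
    Inv XN XY T κ ρ (fun x => f (φ x) x) (fun x => tr (φ x) x) (fun x => bt (φ x) x + b) := by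
  classical
  intro G0 _ Φ c R hR Z hZ
  obtain ⟨V, hV⟩ : ∃ V : Finset G, V = Z.image (fun h => φ (XN h)) := ⟨_, rfl⟩
  have hmaps : ∀ h ∈ Z, φ (XN h) ∈ V := fun h hh => by
    rw [hV]; exact Finset.mem_image_of_mem (fun h => φ (XN h)) hh
  have key : ∀ g ∈ V, R.card * ∑ h ∈ Z.filter (fun h => φ (XN h) = g), nb (f g (XN h)) ≤
      ∑ t ∈ R, ∑ h, (if Φ (XY t h) = c ∧ φ (XY t h) = g then nb (f g (XY t h)) else 0) +
      ∑ h ∈ Z.filter (fun h => φ (XN h) = g), tr g (XN h) +
      κ * (∑ h ∈ Z.filter (fun h => φ (XN h) = g), bt g (XN h) * Real.log 2 +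
        (Z.filter (fun h => φ (XN h) = g)).card *
          Real.log (2 ^ n / (Z.filter (fun h => φ (XN h) = g)).card)) +
      ρ * (Z.filter (fun h => φ (XN h) = g)).card := by
    intro g _
    have h1 := hi g (G0 × G) (Φ.prod φ) (c, g) R hR (Z.filter (fun h => φ (XN h) = g)) (by
      intro h
      rw [Finset.mem_filter, hZ h]
      simp [Prod.ext_iff])
    have h2 : ∀ t h, (Φ.prod φ (XY t h) = (c, g)) = (Φ (XY t h) = c ∧ φ (XY t h) = g) := by
      intro t h
      simp [Prod.ext_iff]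
    refine h1.trans (le_of_eq ?_)
    congr 3
    refine Finset.sum_congr rfl fun t _ => Finset.sum_congr rfl fun h _ => ?_
    by_cases h3 : Φ (XY t h) = c ∧ φ (XY t h) = g
    · rw [if_pos h3, if_pos (by rw [h2]; exact h3)]
    · rw [if_neg h3, if_neg (by rw [h2]; exact h3)]
  have hall := Finset.sum_le_sum key
  have hfib : ∀ F : G → (Fin n → ℤ) → ℝ, ∑ g ∈ V, ∑ h ∈ Z.filter (fun h => φ (XN h) = g),
      F g (XN h) = ∑ h ∈ Z, F (φ (XN h)) (XN h) := by
    intro F
    rw [← Finset.sum_fiberwise_of_maps_to hmaps]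
    refine Finset.sum_congr rfl fun g _ => Finset.sum_congr rfl fun h hh => ?_
    rw [(Finset.mem_filter.1 hh).2]
  have hcard : ∑ g ∈ V, ((Z.filter (fun h => φ (XN h) = g)).card : ℝ) = Z.card := by
    rw [hV, Finset.card_eq_sum_card_image (fun h => φ (XN h)) Z]
    push_cast
    rfl
  rw [← Finset.mul_sum, hfib (fun g x => nb (f g x))] at hall
  rw [Finset.sum_add_distrib, Finset.sum_add_distrib, Finset.sum_add_distrib, ← Finset.mul_sum,
    ← Finset.mul_sum, Finset.sum_add_distrib, hfib tr, hfib (fun g x => bt g x * Real.log 2),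
    hcard] at hall
  have h1 : ∑ g ∈ V, ∑ t ∈ R, ∑ h, (if Φ (XY t h) = c ∧ φ (XY t h) = g then
      nb (f g (XY t h)) else 0) ≤
      ∑ t ∈ R, ∑ h, (if Φ (XY t h) = c then nb (f (φ (XY t h)) (XY t h)) else 0) := by
    rw [Finset.sum_comm]
    refine Finset.sum_le_sum fun t _ => ?_
    rw [Finset.sum_comm]
    refine Finset.sum_le_sum fun h _ => ?_
    by_cases h2 : Φ (XY t h) = c
    · rw [if_pos h2]
      simp only [h2, true_and]
      rw [Finset.sum_ite_eq]
      split_ifs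
      · exact le_rfl
      · exact nb_nonneg _
    · rw [if_neg h2]
      simp [h2]
  have h2 := entropy_le Z (fun h => φ (XN h)) n
  rw [← hV] at h2
  have h3 : (Z.card : ℝ) * Real.log V.card ≤ Z.card * (b * Real.log 2) := by
    refine mul_le_mul_of_nonneg_left (hb V ?_) (Nat.cast_nonneg _)
    intro g hg
    rw [hV] at hg
    obtain ⟨h, _, h4⟩ := Finset.mem_image.1 hg
    exact ⟨h, h4⟩
  have h4 : ∑ h ∈ Z, (bt (φ (XN h)) (XN h) + b) * Real.log 2 =
      ∑ h ∈ Z, bt (φ (XN h)) (XN h) * Real.log 2 + Z.card * (b * Real.log 2) := by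
    simp only [add_mul]
    rw [Finset.sum_add_distrib]
    simp
  simp only
  rw [h4]
  have h5 : κ * (∑ h ∈ Z, bt (φ (XN h)) (XN h) * Real.log 2 +
      ∑ g ∈ V, ((Z.filter (fun h => φ (XN h) = g)).card : ℝ) *
        Real.log (2 ^ n / (Z.filter (fun h => φ (XN h) = g)).card)) ≤
      κ * (∑ h ∈ Z, bt (φ (XN h)) (XN h) * Real.log 2 + Z.card * (b * Real.log 2) +
        Z.card * Real.log (2 ^ n / Z.card)) := by
    refine mul_le_mul_of_nonneg_left ?_ hκ
    linarith
  linarith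

end

end Pool.Agent.J6H11.Ask
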