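import Pool.Agent.J6H11.Ask.Split

/-!
# The inequality for all programs
-/

set_option autoImplicit false

namespace Pool.Agent.J6H11.Ask

open Finset
open Pool.Agent.J6H11.Lsk (Cube lin base0 upd XU uN uY gv phi_N phi_Y TT_mem ix_ne XU_digits XU_pair
  XU_signs uN_abs uN_nonneg uY_abs uY_neg XU_valid sg)
open Pool.Agent.J6H11.Sk3 hiding Prog

variable {n N K m d p : ℕ} {S : Finset ℤ} {τ : ℤ}

/-- the instances without a solution -/
def XN (K m p : ℕ) (e : Fin n → Fin 4 × ℤ) (h : Cube n) : Fin n → ℤ := XU K m p e (uN h)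

/-- the instances with the solution `t` -/
def XY (K m p : ℕ) (e : Fin n → Fin 4 × ℤ) (ix : Fin 4 × ℤ → Fin n) (t : ℤ × ℤ) (h : Cube n) :
    Fin n → ℤ :=
  XU K m p e (uY (ix (0, t.1)) (ix (1, t.2)) (ix (2, t.1 + t.2)) h)

theorem log_quot_nonneg (Z : Finset (Cube n)) : 0 ≤ (Z.card : ℝ) * Real.log (2 ^ n / Z.card) := by
  rcases Z.eq_empty_or_nonempty with hZ | hZ
  · subst hZ; simp
  have hz : (0 : ℝ) < Z.card := by exact_mod_cast hZ.card_pos
  have h1 : (Z.card : ℝ) ≤ 2 ^ n := by
    have : Z.card ≤ Fintype.card (Cube n) := Finset.card_le_univ Z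
    have h2 : Fintype.card (Cube n) = 2 ^ n := by simp [Cube]
    rw [h2] at this
    exact_mod_cast this
  refine mul_nonneg hz.le (Real.log_nonneg ?_)
  rw [le_div_iff₀ hz]
  linarith

theorem inv_answer (H : Setup n N K m d p S τ) {e : Fin n → Fin 4 × ℤ}
    {ix : Fin 4 × ℤ → Fin n}
    (hix : ∀ v ∈ WW m d S τ, e (ix v) = v) {r : ℝ} (hr : 0 < r) (b : Bool) :
    Inv (XN K m p e) (XY K m p e ix) (TT S τ) (48 * m / r) (12 * r * (TT S τ).card)
      (fun _ => b) (fun _ => 0) (fun _ => 0) := by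
  classical
  intro G _ Φ c R hR Z hZ
  have hlog := log_quot_nonneg Z
  have hm0 : (0 : ℝ) ≤ m := Nat.cast_nonneg _
  have hz0 : (0 : ℝ) ≤ Z.card := Nat.cast_nonneg _
  simp only [Finset.sum_const_zero, zero_mul, zero_add, add_zero, Finset.sum_const, nsmul_eq_mul]
  cases b with
  | true =>
    have h1 : nb true = 0 := by simp [nb]
    rw [h1]
    simp only [ite_self, Finset.sum_const_zero, mul_zero, zero_add]
    positivity
  | false =>
    have h1 : nb false = 1 := by simp [nb]
    rw [h1, mul_one]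
    have hT : ∀ t ∈ R, t ∈ TT S τ := fun t ht => hR ht
    have hmaps : ∀ t ∈ R, t.1 - t.2 ∈ Finset.Ioo (-(m : ℤ)) m := by
      intro t ht
      have h1 := mem_TT.1 (hT t ht)
      have h2 := H.hm _ h1.1
      have h3 := H.hm _ h1.2.1
      rw [Finset.mem_Ioo]
      omega
    -- one fibre
    have key : ∀ s ∈ Finset.Ioo (-(m : ℤ)) m, ∑ t ∈ R.filter (fun t => t.1 - t.2 = s),
        ((Z.card : ℝ) - ∑ h, (if Φ (XY K m p e ix t h) = c then (1 : ℝ) else 0)) ≤
        24 * (Z.card * (Real.log (2 ^ n / Z.card) / r +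
          r * (R.filter (fun t => t.1 - t.2 = s)).card / 2)) := by
      intro s _
      have hmem : ∀ t ∈ R.filter (fun t => t.1 - t.2 = s), t ∈ TT S τ ∧ t.1 - t.2 = s := by
        intro t ht
        exact ⟨hT t (Finset.mem_filter.1 ht).1, (Finset.mem_filter.1 ht).2⟩
      have h2 := matching_le (Φ (X0 K m p e)) (gv p e Φ) c (R.filter (fun t => t.1 - t.2 = s))
        (fun t => t.1) (fun t => ix (0, t.1)) (fun t => ix (1, t.2)) (fun t => ix (2, t.1 + t.2))
        (by
          intro t ht t' ht' hk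
          have h3 := (hmem t ht).2
          have h4 := (hmem t' ht').2
          exact Prod.ext hk (by omega))
        (by
          intro t ht
          obtain ⟨m0, m1, m2⟩ := TT_mem (m := m) (d := d) (hmem t ht).1
          exact ⟨ix_ne hix m0 m1 (by simp), ix_ne hix m0 m2 (by simp),
            ix_ne hix m1 m2 (by simp)⟩)
        (by
          intro t ht t' ht' hne i hi
          obtain ⟨m0, m1, m2⟩ := TT_mem (m := m) (d := d) (hmem t ht).1
          obtain ⟨n0, n1, n2⟩ := TT_mem (m := m) (d := d) (hmem t' ht').1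
          have h3 := (hmem t ht).2
          have h4 := (hmem t' ht').2
          rcases hi with hi | hi | hi
          · subst hi
            refine ⟨ix_ne hix m0 n0 ?_, ix_ne hix m0 n1 (by simp), ix_ne hix m0 n2 (by simp)⟩
            intro h5
            have h6 : t.1 = t'.1 := by simpa using h5
            exact hne (Prod.ext h6 (by omega))
          · subst hi
            refine ⟨ix_ne hix m1 n0 (by simp), ix_ne hix m1 n1 ?_, ix_ne hix m1 n2 (by simp)⟩
            intro h5
            have h6 : t.2 = t'.2 := by simpa using h5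
            exact hne (Prod.ext (by omega) h6)
          · subst hi
            refine ⟨ix_ne hix m2 n0 (by simp), ix_ne hix m2 n1 (by simp), ix_ne hix m2 n2 ?_⟩
            intro h5
            have h6 : t.1 + t.2 = t'.1 + t'.2 := by simpa using h5
            exact hne (Prod.ext (by omega) (by omega)))
        Z (fun h => by
          rw [hZ h, XN, phi_N]) hr
      refine le_trans (le_of_eq ?_) h2
      refine Finset.sum_congr rfl fun t _ => ?_
      congr 1
      refine Finset.sum_congr rfl fun h _ => ?_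
      rw [XY, phi_Y]
    have hall := Finset.sum_le_sum key
    rw [Finset.sum_fiberwise_of_maps_to hmaps, Finset.sum_sub_distrib, ← Finset.mul_sum,
      ← Finset.mul_sum, Finset.sum_add_distrib] at hall
    simp only [Finset.sum_const, nsmul_eq_mul] at hall
    have h5 : ∑ s ∈ Finset.Ioo (-(m : ℤ)) m,
        r * ((R.filter (fun t => t.1 - t.2 = s)).card : ℝ) / 2 = r * R.card / 2 := by
      rw [← Finset.sum_div, ← Finset.mul_sum, Finset.card_eq_sum_card_fiberwise hmaps]
      push_cast
      rfl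
    rw [h5] at hall
    have h6 : ((Finset.Ioo (-(m : ℤ)) m).card : ℝ) ≤ 2 * m := by
      have hm1 := H.hm1
      have : (Finset.Ioo (-(m : ℤ)) m).card ≤ 2 * m := by
        rw [Int.card_Ioo]
        omega
      exact_mod_cast this
    have h7 : (R.card : ℝ) ≤ (TT S τ).card := by exact_mod_cast Finset.card_le_card hR
    obtain ⟨Λ, hΛ⟩ : ∃ Λ : ℝ, Λ = Real.log (2 ^ n / Z.card) := ⟨_, rfl⟩
    rw [← hΛ] at hall hlog ⊢
    have h8 : (Z.card : ℝ) * (((Finset.Ioo (-(m : ℤ)) m).card : ℝ) * (Λ / r)) ≤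
        Z.card * Λ * (2 * m) / r := by
      have h9 : (Z.card : ℝ) * (((Finset.Ioo (-(m : ℤ)) m).card : ℝ) * (Λ / r)) =
          (Z.card * Λ) * ((Finset.Ioo (-(m : ℤ)) m).card : ℝ) / r := by ring
      rw [h9]
      gcongr
    have h9 : (Z.card : ℝ) * (r * R.card / 2) ≤ Z.card * (r * (TT S τ).card / 2) := by gcongr
    have h10 : 48 * m / r * (Z.card * Λ) = 24 * (Z.card * Λ * (2 * m) / r) := by ring
    rw [h10]
    have h11 : (Z.card : ℝ) * (((Finset.Ioo (-(m : ℤ)) m).card : ℝ) * (Λ / r) +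
        r * R.card / 2) ≤ Z.card * Λ * (2 * m) / r + Z.card * (r * (TT S τ).card / 2) := by
      rw [mul_add]
      linarith
    have h12 : (R.card : ℝ) * Z.card - ∑ t ∈ R, ∑ h, (if Φ (XY K m p e ix t h) = c then (1 : ℝ)
        else 0) ≤ 24 * (Z.card * Λ * (2 * m) / r + Z.card * (r * (TT S τ).card / 2)) := by
      refine le_trans ?_ (mul_le_mul_of_nonneg_left h11 (by norm_num))
      refine le_trans (le_of_eq ?_) hall
      ring
    linarith

section

variable {A : Cube n → Fin n → ℤ} {B : ℤ × ℤ → Cube n → Fin n → ℤ} {T : Finset (ℤ × ℤ)} {κ ρ : ℝ}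

theorem Inv.congr {f f' : (Fin n → ℤ) → Bool} {tr tr' bt bt' : (Fin n → ℤ) → ℝ}
    (hi : Inv A B T κ ρ f' tr' bt') (h1 : ∀ h, f (A h) = f' (A h))
    (h2 : ∀ h, tr (A h) = tr' (A h)) (h3 : ∀ h, bt (A h) = bt' (A h))
    (h4 : ∀ t ∈ T, ∀ h, f (B t h) = f' (B t h)) : Inv A B T κ ρ f tr bt := by
  classical
  intro G _ Φ c R hR Z hZ
  have := hi G Φ c R hR Z hZ
  simp only [h1, h2, h3]
  refine this.trans (le_of_eq ?_)
  congr 3
  refine Finset.sum_congr rfl fun t ht => Finset.sum_congr rfl fun h _ => ?_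
  rw [h4 t (hR ht)]

theorem Inv.compare {f f' : (Fin n → ℤ) → Bool} {tr tr' bt bt' : (Fin n → ℤ) → ℝ}
    (hi : Inv A B T κ ρ f' tr' bt') (h1 : ∀ h, f (A h) = f' (A h))
    (h2 : ∀ h, tr (A h) = tr' (A h) + 1) (h3 : ∀ h, bt (A h) = bt' (A h)) (Q : ℤ × ℤ → Prop)
    (hQ : ∀ t t', Q t → Q t' → t = t')
    (h4 : ∀ t ∈ T, ¬ Q t → ∀ h, f (B t h) = f' (B t h)) : Inv A B T κ ρ f tr bt := by
  classical
  intro G _ Φ c R hR Z hZ
  obtain ⟨R', hR'⟩ : ∃ R' : Finset (ℤ × ℤ), R' = R.filter (fun t => ¬ Q t) := ⟨_, rfl⟩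
  have hsub : R' ⊆ R := by rw [hR']; exact Finset.filter_subset _ _
  have hc : (R.card : ℝ) ≤ R'.card + 1 := by
    have h5 : (R.filter Q).card ≤ 1 := by
      rw [Finset.card_le_one]
      intro t ht t' ht'
      exact hQ t t' (Finset.mem_filter.1 ht).2 (Finset.mem_filter.1 ht').2
    have h6 := Finset.card_filter_add_card_filter_not (s := R) Q
    rw [← hR'] at h6
    have : R.card ≤ R'.card + 1 := by omega
    exact_mod_cast this
  have := hi G Φ c R' (hsub.trans hR) Z hZ
  simp only [h1, h2, h3]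
  have h7 : ∑ t ∈ R', ∑ h, (if Φ (B t h) = c then nb (f' (B t h)) else 0) ≤
      ∑ t ∈ R, ∑ h, (if Φ (B t h) = c then nb (f (B t h)) else 0) := by
    have h8 : ∑ t ∈ R', ∑ h, (if Φ (B t h) = c then nb (f' (B t h)) else 0) =
        ∑ t ∈ R', ∑ h, (if Φ (B t h) = c then nb (f (B t h)) else 0) := by
      refine Finset.sum_congr rfl fun t ht => Finset.sum_congr rfl fun h _ => ?_
      rw [hR'] at ht
      rw [h4 t (hR (Finset.mem_filter.1 ht).1) (Finset.mem_filter.1 ht).2]
    rw [h8]
    refine Finset.sum_le_sum_of_subset_of_nonneg hsub fun t _ _ => Finset.sum_nonneg fun h _ => ?_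
    split_ifs
    · exact nb_nonneg _
    · exact le_rfl
  have h9 : ∑ h ∈ Z, nb (f' (A h)) ≤ Z.card := by
    calc ∑ h ∈ Z, nb (f' (A h)) ≤ ∑ _h ∈ Z, (1 : ℝ) := Finset.sum_le_sum fun h _ => nb_le _
      _ = Z.card := by simp
  have h10 : 0 ≤ ∑ h ∈ Z, nb (f' (A h)) := Finset.sum_nonneg fun h _ => nb_nonneg _
  have h11 : ∑ h ∈ Z, (tr' (A h) + 1) = ∑ h ∈ Z, tr' (A h) + Z.card := by
    rw [Finset.sum_add_distrib]
    simp
  rw [h11]
  have h12 : (R.card : ℝ) * ∑ h ∈ Z, nb (f' (A h)) ≤
      R'.card * ∑ h ∈ Z, nb (f' (A h)) + ∑ h ∈ Z, nb (f' (A h)) := by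
    have := mul_le_mul_of_nonneg_right hc h10
    linarith
  linarith

end

theorem inv_prog (H : Setup n N K m d p S τ) {e : Fin n → Fin 4 × ℤ}
    (he : ∀ i, e i ∈ WW m d S τ) (hei : Function.Injective e) {ix : Fin 4 × ℤ → Fin n}
    (hix : ∀ v ∈ WW m d S τ, e (ix v) = v) {K0 : ℕ} (hK0 : K0 ≤ K) {r : ℝ} (hr : 0 < r)
    (P : Prog n) :
    Inv (XN K m p e) (XY K m p e ix) (TT S τ) (48 * m / r) (12 * r * (TT S τ).card)
      (fun x => P.eval K0 p x) (fun x => (P.triples K0 p x : ℝ))
      (fun x => (P.reads K0 p x : ℝ) + P.bits K0 p N x) := by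
  have hκ : 0 ≤ 48 * (m : ℝ) / r := by positivity
  have hblock : ∀ t ∈ TT S τ, ix (0, t.1) ≠ ix (1, t.2) ∧ ix (0, t.1) ≠ ix (2, t.1 + t.2) ∧
      ix (1, t.2) ≠ ix (2, t.1 + t.2) := by
    intro t ht
    obtain ⟨m0, m1, m2⟩ := TT_mem (m := m) (d := d) ht
    exact ⟨ix_ne hix m0 m1 (by simp), ix_ne hix m0 m2 (by simp), ix_ne hix m1 m2 (by simp)⟩
  have huY : ∀ t ∈ TT S τ, ∀ h i,
      |uY (ix (0, t.1)) (ix (1, t.2)) (ix (2, t.1 + t.2)) h i| ≤ 1 := fun t ht h i =>
    uY_abs (hblock t ht).1 (hblock t ht).2.1 (hblock t ht).2.2 h i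
  have dN : ∀ h i, XN K m p e h i % p = X0 K m p e i % p ∧
      XN K m p e h i / (4 * p) = X0 K m p e i / (4 * p) := fun h i =>
    XU_digits H hei (uN_abs h) i
  have dY : ∀ t ∈ TT S τ, ∀ h i, XY K m p e ix t h i % p = X0 K m p e i % p ∧
      XY K m p e ix t h i / (4 * p) = X0 K m p e i / (4 * p) := fun t ht h i =>
    XU_digits H hei (huY t ht h) i
  have pN : ∀ h i j, signs K0 (XN K m p e h i) (XN K m p e h j) 0 =
      signs K0 (X0 K m p e i) (X0 K m p e j) 0 := fun h i j =>
    XU_pair H he hei (uN_abs h) hK0 i j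
  have pY : ∀ t ∈ TT S τ, ∀ h i j, signs K0 (XY K m p e ix t h i) (XY K m p e ix t h j) 0 =
      signs K0 (X0 K m p e i) (X0 K m p e j) 0 := fun t ht h i j =>
    XU_pair H he hei (huY t ht h) hK0 i j
  have tN : ∀ h i j k, signs K0 (XN K m p e h i) (XN K m p e h j) (XN K m p e h k) =
      signs K0 (X0 K m p e i) (X0 K m p e j) (X0 K m p e k) := fun h i j k =>
    XU_signs H he hei hix (uN_abs h) hK0 i j k (by
      intro t _ h2
      have := uN_nonneg h (ix (0, t.1))
      omega)
  have tY : ∀ i j k, ∀ t ∈ TT S τ, ¬ s3 (e i) (e j) (e k) = ts t → ∀ h,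
      signs K0 (XY K m p e ix t h i) (XY K m p e ix t h j) (XY K m p e ix t h k) =
      signs K0 (X0 K m p e i) (X0 K m p e j) (X0 K m p e k) := by
    intro i j k t ht hne h
    obtain ⟨m0, m1, m2⟩ := TT_mem (m := m) (d := d) ht
    refine XU_signs H he hei hix (huY t ht h) hK0 i j k ?_
    intro t' ht' e0 e1 _
    obtain ⟨n0, n1, n2⟩ := TT_mem (m := m) (d := d) ht'
    have f0 : t'.1 = t.1 := by
      rcases uY_neg e0 with h2 | h2 | h2
      · have h3 := congrArg e h2
        rw [hix _ n0, hix _ m0] at h3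
        simpa using h3
      · have h3 := congrArg e h2
        rw [hix _ n0, hix _ m1] at h3
        simp at h3
      · have h3 := congrArg e h2
        rw [hix _ n0, hix _ m2] at h3
        simp at h3
    have f1 : t'.2 = t.2 := by
      rcases uY_neg e1 with h2 | h2 | h2
      · have h3 := congrArg e h2
        rw [hix _ n1, hix _ m0] at h3
        simp at h3
      · have h3 := congrArg e h2
        rw [hix _ n1, hix _ m1] at h3
        simpa using h3
      · have h3 := congrArg e h2
        rw [hix _ n1, hix _ m2] at h3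
        simp at h3
    have : t' = t := Prod.ext f0 f1
    rw [this]
    exact hne
  induction P with
  | answer b =>
    refine (inv_answer H hix hr b).congr (fun _ => rfl) (fun _ => ?_) (fun _ => ?_)
      (fun _ _ _ => rfl)
    · simp [Prog.triples]
    · simp [Prog.reads, Prog.bits]
  | digits i next ih =>
    refine (ih (X0 K m p e i % p) (X0 K m p e i / (4 * p))).congr (fun h => ?_) (fun h => ?_)
      (fun h => ?_) (fun t ht h => ?_)
    · simp only [Prog.eval]; rw [(dN h i).1, (dN h i).2]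
    · simp only [Prog.triples]; rw [(dN h i).1, (dN h i).2]
    · simp only [Prog.reads, Prog.bits]; rw [(dN h i).1, (dN h i).2]
    · simp only [Prog.eval]; rw [(dY t ht h i).1, (dY t ht h i).2]
  | pair i j next ih =>
    refine (ih (signs K0 (X0 K m p e i) (X0 K m p e j) 0)).congr (fun h => ?_) (fun h => ?_)
      (fun h => ?_) (fun t ht h => ?_)
    · simp only [Prog.eval]; rw [pN h i j]
    · simp only [Prog.triples]; rw [pN h i j]
    · simp only [Prog.reads, Prog.bits]; rw [pN h i j]
    · simp only [Prog.eval]; rw [pY t ht h i j]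
  | triple i j k next ih =>
    refine (ih (signs K0 (X0 K m p e i) (X0 K m p e j) (X0 K m p e k))).compare (fun h => ?_)
      (fun h => ?_) (fun h => ?_) (fun t => s3 (e i) (e j) (e k) = ts t)
      (fun t t' h1 h2 => ts_inj (h1.symm.trans h2)) (fun t ht hne h => ?_)
    · simp only [Prog.eval]; rw [tN h i j k]
    · simp only [Prog.triples]; rw [tN h i j k]; push_cast; rfl
    · simp only [Prog.reads, Prog.bits]; rw [tN h i j k]
    · simp only [Prog.eval]; rw [tY i j k t ht hne h]
  | read i next ih =>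
    have h1 := Inv.split hκ (Pi.evalAddMonoidHom (fun _ : Fin n => ℤ) i)
      (f := fun g x => (next g).eval K0 p x) (tr := fun g x => ((next g).triples K0 p x : ℝ))
      (bt := fun g x => ((next g).reads K0 p x : ℝ) + (next g).bits K0 p N x) ih (b := 1) (by
        intro V hV
        have h2 : V ⊆ {(p : ℤ) * (yy K m (e i)), (p : ℤ) * (yy K m (e i) + sg (e i).1)} := by
          intro g hg
          obtain ⟨h, rfl⟩ := hV g hg
          simp only [Pi.evalAddMonoidHom_apply, XN, XU, uN, Finset.mem_insert,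
            Finset.mem_singleton]
          cases h i <;> simp
        have h3 : V.card ≤ 2 := (Finset.card_le_card h2).trans Finset.card_le_two
        rw [one_mul]
        rcases Nat.eq_zero_or_pos V.card with h4 | h4
        · rw [h4]
          simp [Real.log_nonneg]
        · exact Real.log_le_log (by exact_mod_cast h4) (by exact_mod_cast h3))
    refine h1.congr (fun _ => rfl) (fun _ => rfl) (fun h => ?_) (fun _ _ _ => rfl)
    simp only [Prog.reads, Prog.bits, Pi.evalAddMonoidHom_apply]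
    push_cast
    ring
  | sketch G φ next ih =>
    have h1 := Inv.split hκ φ
      (f := fun g x => (next g).eval K0 p x) (tr := fun g x => ((next g).triples K0 p x : ℝ))
      (bt := fun g x => ((next g).reads K0 p x : ℝ) + (next g).bits K0 p N x) ih
      (b := Real.logb 2 (values N φ)) (by
        intro V hV
        have h2 : V.card ≤ values N φ := by
          unfold values
          rw [← Set.ncard_coe_finset]
          refine Set.ncard_le_ncard ?_ ((box_finite n N).image _)
          intro g hg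
          obtain ⟨h, rfl⟩ := hV g (Finset.mem_coe.1 hg)
          exact ⟨XN K m p e h, (XU_valid H he hei (uN_abs h)).2, rfl⟩
        have h3 : Real.logb 2 (values N φ) * Real.log 2 = Real.log (values N φ) := by
          unfold Real.logb
          exact div_mul_cancel₀ _ (Real.log_pos (by norm_num)).ne'
        rw [h3]
        rcases Nat.eq_zero_or_pos V.card with h4 | h4
        · rw [h4]
          simp only [Nat.cast_zero, Real.log_zero]
          exact Real.log_natCast_nonneg _
        · exact Real.log_le_log (by exact_mod_cast h4) (by exact_mod_cast h2))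
    refine h1.congr (fun _ => rfl) (fun _ => rfl) (fun h => ?_) (fun _ _ _ => rfl)
    simp only [Prog.reads, Prog.bits]
    ring

end Pool.Agent.J6H11.Ask
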